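import Mathlib

/-!
# Definitions for MP_4a7e1d_al, Q2 (finite hyperfield quotients of skew fields)
-/

namespace HFQ

/-- The underlying set of the quotient `F / Γ`: zero together with the group `Fˣ / Γ`. -/
abbrev Quo (F : Type*) [DivisionRing F] (Γ : Subgroup Fˣ) := WithZero (Fˣ ⧸ Γ)

open Classical in
/-- The class `[x]` of an element of `F`. -/
noncomputable def cls {F : Type*} [DivisionRing F] (Γ : Subgroup Fˣ) (x : F) : Quo F Γ :=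
  if h : x = 0 then 0 else ((QuotientGroup.mk (Units.mk0 x h) : Fˣ ⧸ Γ) : WithZero (Fˣ ⧸ Γ))

/-- The hyperaddition of `F / Γ`. -/
def hadd {F : Type*} [DivisionRing F] (Γ : Subgroup Fˣ) (a b : Quo F Γ) : Set (Quo F Γ) :=
  {c | ∃ x y : F, cls Γ x = a ∧ cls Γ y = b ∧ cls Γ (x + y) = c}

/-- An isomorphism of the hyperfields `F / Γ` and `K / Δ`. -/
def IsIso {F K : Type*} [DivisionRing F] [DivisionRing K] (Γ : Subgroup Fˣ) [Γ.Normal]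
    (Δ : Subgroup Kˣ) [Δ.Normal] (f : Quo F Γ ≃ Quo K Δ) : Prop :=
  f 0 = 0 ∧ (∀ a b, f (a * b) = f a * f b) ∧
    ∀ a b, f '' hadd Γ a b = hadd Δ (f a) (f b)

/-- residue `≡ 1 mod 3` in `ZMod 27` -/
def A1 (x : ZMod 27) : Prop := 9 * x = 9

/-- residue `≡ 1 mod 9` in `ZMod 27` -/
def A2 (x : ZMod 27) : Prop := 3 * x = 3

instance (x : ZMod 27) : Decidable (A1 x) := by unfold A1; infer_instance
instance (x : ZMod 27) : Decidable (A2 x) := by unfold A2; infer_instance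

/-- The data which a hyperfield isomorphism `D / Γ ≅ K / Δ` puts on `K`
(also satisfied by `D` itself): `V` = valuation of the norm mod 11,
`χ` = unit part of the norm mod 27.  `K` is only required to be a division ring. -/
structure Dat (K : Type*) [DivisionRing K] (V : K → ZMod 11) (χ : K → ZMod 27) : Prop where
  Vmul : ∀ x y : K, x ≠ 0 → y ≠ 0 → V (x * y) = V x + V y
  Xmul : ∀ x y : K, x ≠ 0 → y ≠ 0 → χ (x * y) = χ x * χ y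
  Xunit : ∀ x : K, x ≠ 0 → IsUnit (χ x)
  Vneg : V (-1) = 0
  Xneg : χ (-1) = 1
  U1 : ∀ z : K, z ≠ 0 → V z ≠ 0 → V (1 + z) = 0 ∨ V (1 + z) = V z
  U2 : ∀ z : K, z ≠ 0 → V z ≠ 0 → V z ≠ 1 → V z ≠ 2 → V z ≠ 3 → V z ≠ 4 → V (1 + z) = 0 →
    χ (1 + z) = 1
  U3 : ∀ z : K, z ≠ 0 → (V z = 3 ∨ V z = 4) → V (1 + z) = 0 → A2 (χ (1 + z))
  U4 : ∀ z : K, z ≠ 0 → V z ≠ 0 → V (1 + z) = 0 → A1 (χ (1 + z))
  U5 : ∀ z : K, z ≠ 0 → V z = 2 → V (1 + z) = 0 → A2 (χ (1 + z)) → χ (1 + z) ≠ 1 → A1 (χ z)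
  U6 : ∀ z : K, z ≠ 0 → 1 + z ≠ 0 → V z = 0 → V (1 + z) = 0 → χ z = 10 → χ (1 + z) ≠ 4
  E1 : ∃ z : K, z ≠ 0 ∧ V z = 1 ∧ χ z = 1 ∧ V (1 + z) = 0 ∧ χ (1 + z) = 4
  E2 : ∃ z : K, z ≠ 0 ∧ V z = 1 ∧ χ z = 2 ∧ V (1 + z) = 0 ∧ χ (1 + z) = 7
  E3 : ∃ z : K, z ≠ 0 ∧ V z = 2 ∧ χ z = 1 ∧ V (1 + z) = 0 ∧ χ (1 + z) = 10
  E4 : ∃ z : K, z ≠ 0 ∧ V z = 2 ∧ χ z = 1 ∧ V (1 + z) = 0 ∧ χ (1 + z) = 13
  E5 : ∃ z : K, z ≠ 0 ∧ V z = 4 ∧ χ z = 1 ∧ V (1 + z) = 0 ∧ χ (1 + z) = 10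

/-- What the data give on a commutative field `K`: a valuation ring `O` with uniformiser `τ`. -/
structure Lev (K : Type*) [Field K] (V : K → ZMod 11) (χ : K → ZMod 27)
    (O : ValuationSubring K) (τ : K) : Prop where
  t0 : τ ≠ 0
  t1 : O.valuation τ < 1
  t2 : χ τ = 1
  V1 : ∀ x : K, O.valuation x = 1 → V x = 0
  m1 : ∀ x : K, O.valuation x < 1 → V (1 + x) = 0 ∧ A1 (χ (1 + x))
  m3 : ∀ x : K, O.valuation x ≤ O.valuation τ ^ 3 → A2 (χ (1 + x))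
  m5 : ∀ x : K, O.valuation x ≤ O.valuation τ ^ 5 → χ (1 + x) = 1
  unif : ∀ x : K, O.valuation x < 1 → O.valuation x ≤ O.valuation τ
  c2 : ∃ c : K, O.valuation c = 1 ∧ χ c = 2
  z2 : ∃ z : K, O.valuation z = O.valuation τ ^ 2 ∧ χ (1 + z) = 13
  w2 : ∃ z : K, O.valuation z = O.valuation τ ^ 2 ∧ χ (1 + z) = 10
  z4 : ∃ z : K, O.valuation z = O.valuation τ ^ 4 ∧ χ (1 + z) = 10
  R2 : ∀ z : K, O.valuation z = O.valuation τ ^ 2 → A2 (χ (1 + z)) → A1 (χ z)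

end HFQ
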