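import Pool.Agent.Helper43.HF.Defs

namespace HFQ
namespace P1

variable {K : Type*} [Field K] {V : K → ZMod 11} {χ : K → ZMod 27}

theorem Vone (h : Dat K V χ) : V 1 = 0 := by
  have := h.Vmul 1 1 one_ne_zero one_ne_zero
  rw [mul_one] at this
  exact left_eq_add.1 this

theorem Vneg' (h : Dat K V χ) {x : K} (hx : x ≠ 0) : V (-x) = V x := by
  have := h.Vmul (-1) x (neg_ne_zero.2 one_ne_zero) hx
  rw [h.Vneg, zero_add, neg_one_mul] at this
  exact this

theorem Vinv (h : Dat K V χ) {x : K} (hx : x ≠ 0) : V x⁻¹ = - V x := by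
  have := h.Vmul x x⁻¹ hx (inv_ne_zero hx)
  rw [mul_inv_cancel₀ hx, Vone h] at this
  exact eq_neg_of_add_eq_zero_right this.symm

/-- small elements -/
def S (V : K → ZMod 11) (x : K) : Prop := x ≠ 0 ∧ V x ≠ 0 ∧ V (1 + x) = 0

theorem ne1 (h : Dat K V χ) {x : K} (hx : V x ≠ 0) : 1 + x ≠ 0 := by
  intro e
  have : x = -1 := by linear_combination e
  rw [this, h.Vneg] at hx
  exact hx rfl

theorem two_ne {a : ZMod 11} (ha : a ≠ 0) : a + a ≠ 0 := by
  revert a; decide

/-- exactly one of `x`, `x⁻¹` is small -/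
theorem S_or (h : Dat K V χ) {x : K} (hx : x ≠ 0) (hV : V x ≠ 0) : S V x ∨ S V x⁻¹ := by
  rcases h.U1 x hx hV with h1 | h1
  · exact Or.inl ⟨hx, hV, h1⟩
  · right
    refine ⟨inv_ne_zero hx, ?_, ?_⟩
    · rw [Vinv h hx]; exact neg_ne_zero.2 hV
    · have e : 1 + x⁻¹ = (1 + x) * x⁻¹ := by field_simp; ring
      rw [e, h.Vmul _ _ (ne1 h hV) (inv_ne_zero hx), Vinv h hx, h1]
      ring

theorem S_inv (h : Dat K V χ) {x : K} (hx : S V x) : ¬ S V x⁻¹ := by
  rintro ⟨h1, h2, h3⟩
  have e : 1 + x⁻¹ = (1 + x) * x⁻¹ := by have := hx.1; field_simp; ring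
  rw [e, h.Vmul _ _ (ne1 h hx.2.1) h1, hx.2.2, zero_add] at h3
  exact h2 h3

theorem S_neg (h : Dat K V χ) {x : K} (hx : S V x) : S V (-x) := by
  obtain ⟨h1, h2, h3⟩ := hx
  have hn : V (-x) ≠ 0 := by rw [Vneg' h h1]; exact h2
  refine ⟨neg_ne_zero.2 h1, hn, ?_⟩
  rcases h.U1 (-x) (neg_ne_zero.2 h1) hn with h4 | h4
  · exact h4
  · exfalso
    have hne : 1 + -x ≠ 0 := ne1 h hn
    have e1 : V ((1 + x) * (1 + -x)) = V x := by
      rw [h.Vmul _ _ (ne1 h h2) hne, h3, h4, Vneg' h h1, zero_add]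
    have hx2 : V (-(x * x)) = V x + V x := by
      rw [Vneg' h (mul_ne_zero h1 h1), h.Vmul _ _ h1 h1]
    have hx2' : V (-(x * x)) ≠ 0 := by rw [hx2]; exact two_ne h2
    have e2 : (1 + x) * (1 + -x) = 1 + -(x * x) := by ring
    rw [e2] at e1
    rcases h.U1 (-(x * x)) (neg_ne_zero.2 (mul_ne_zero h1 h1)) hx2' with h5 | h5
    · rw [e1] at h5; exact h2 h5
    · rw [e1, hx2] at h5
      exact h2 (left_eq_add.1 h5)

/-- the basic rule -/
theorem rule (h : Dat K V χ) {x y : K} (hx : S V x) (hy : S V y) (hxy : V (x * y) ≠ 0) :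
    S V (x * (1 + y)) ∧ S V (x * y / (1 + x)) := by
  have hx1 := ne1 h hx.2.1
  have hy1 := ne1 h hy.2.1
  have hxy0 : x * y ≠ 0 := mul_ne_zero hx.1 hy.1
  have hV := h.Vmul x y hx.1 hy.1
  have a0 : x * (1 + y) ≠ 0 := mul_ne_zero hx.1 hy1
  have a1 : V (x * (1 + y)) = V x := by rw [h.Vmul _ _ hx.1 hy1, hy.2.2, add_zero]
  have b0 : x * y / (1 + x) ≠ 0 := div_ne_zero hxy0 hx1
  have b1 : V (x * y / (1 + x)) = V (x * y) := by
    rw [div_eq_mul_inv, h.Vmul _ _ hxy0 (inv_ne_zero hx1), Vinv h hx1, hx.2.2, neg_zero, add_zero]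
  have b2 : V (x * y / (1 + x)) ≠ 0 := by rw [b1]; exact hxy
  have e : 1 + x * (1 + y) = (1 + x) * (1 + x * y / (1 + x)) := by field_simp; ring
  have e1 : V (1 + x * (1 + y)) = V (1 + x * y / (1 + x)) := by
    rw [e, h.Vmul _ _ hx1 (ne1 h b2), hx.2.2, zero_add]
  have key : V (1 + x * (1 + y)) = 0 := by
    rcases h.U1 _ a0 (by rw [a1]; exact hx.2.1) with h1 | h1
    · exact h1
    · rcases h.U1 _ b0 b2 with h2 | h2
      · rw [e1]; exact h2
      · exfalso
        rw [e1, h2, a1, b1, hV] at h1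
        exact hy.2.1 (add_eq_left.1 h1)
  exact ⟨⟨a0, by rw [a1]; exact hx.2.1, key⟩, ⟨b0, b2, by rw [← e1]; exact key⟩⟩

theorem S_mul (h : Dat K V χ) {x y : K} (hx : S V x) (hy : S V y) (hxy : V (x * y) ≠ 0) :
    S V (x * y) := by
  have hn := S_neg h hx
  have hn1 : 1 + -x ≠ 0 := ne1 h hn.2.1
  have hx' : S V (x / (1 + -x)) := by
    refine ⟨div_ne_zero hx.1 hn1, ?_, ?_⟩
    · rw [div_eq_mul_inv, h.Vmul _ _ hx.1 (inv_ne_zero hn1), Vinv h hn1, hn.2.2, neg_zero,
        add_zero]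
      exact hx.2.1
    · have e : 1 + x / (1 + -x) = (1 + -x)⁻¹ := by field_simp; ring
      rw [e, Vinv h hn1, hn.2.2, neg_zero]
  have hV' : V (x / (1 + -x) * y) = V (x * y) := by
    have : x / (1 + -x) * y = (x * y) * (1 + -x)⁻¹ := by field_simp
    rw [this, h.Vmul _ _ (mul_ne_zero hx.1 hy.1) (inv_ne_zero hn1), Vinv h hn1, hn.2.2, neg_zero,
      add_zero]
  have := (rule h hx' hy (by rw [hV']; exact hxy)).2
  have e : x / (1 + -x) * y / (1 + x / (1 + -x)) = x * y := by
    have h3 : 1 + x / (1 + -x) = (1 + -x)⁻¹ := by field_simp; ring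
    rw [h3]; field_simp
  rw [e] at this
  exact this

/-- multiplication by `1 + x` preserves small elements -/
theorem S_one_add (h : Dat K V χ) {x y : K} (hx : S V x) (hy : S V y) : S V (y * (1 + x)) := by
  have hx1 := ne1 h hx.2.1
  have a1 : V (y * (1 + x)) = V y := by rw [h.Vmul _ _ hy.1 hx1, hx.2.2, add_zero]
  have a0 : y * (1 + x) ≠ 0 := mul_ne_zero hy.1 hx1
  by_cases hxy : V (y * x) = 0
  · rcases S_or h a0 (by rw [a1]; exact hy.2.1) with h1 | h1
    · exact h1
    · exfalso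
      have hu : V ((y * (1 + x))⁻¹) = V x := by
        rw [Vinv h a0, a1]
        rw [h.Vmul _ _ hy.1 hx.1] at hxy
        exact neg_eq_of_add_eq_zero_right hxy
      have h2 : V ((y * (1 + x))⁻¹ * x) ≠ 0 := by
        rw [h.Vmul _ _ h1.1 hx.1, hu]; exact two_ne hx.2.1
      have h3 := (rule h h1 hx h2).1
      have e : (y * (1 + x))⁻¹ * (1 + x) = y⁻¹ := by
        have := hy.1
        field_simp
      rw [e] at h3
      exact S_inv h hy h3
  · exact (rule h hy hx hxy).1

/-- multiplication by `(1 + x)⁻¹` preserves small elements -/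
theorem S_div (h : Dat K V χ) {x y : K} (hx : S V x) (hy : S V y) : S V (y / (1 + x)) := by
  have hx1 := ne1 h hx.2.1
  have e0 : 1 + -(x / (1 + x)) = (1 + x)⁻¹ := by field_simp; ring
  have h1 : S V (-(x / (1 + x))) := by
    have a0 : x / (1 + x) ≠ 0 := div_ne_zero hx.1 hx1
    refine ⟨neg_ne_zero.2 a0, ?_, ?_⟩
    · rw [Vneg' h a0, div_eq_mul_inv, h.Vmul _ _ hx.1 (inv_ne_zero hx1), Vinv h hx1, hx.2.2,
        neg_zero, add_zero]
      exact hx.2.1
    · rw [e0, Vinv h hx1, hx.2.2, neg_zero]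
  have := S_one_add h h1 hy
  rw [e0] at this
  rw [div_eq_mul_inv]; exact this

theorem S_mul3 (h : Dat K V χ) {x y z : K} (hx : S V x) (hy : S V y) (hz : S V z)
    (hV : V (x * y * z) ≠ 0) : S V (x * y * z) := by
  by_cases h1 : V (x * y) = 0
  · by_cases h2 : V (x * z) = 0
    · by_cases h3 : V (y * z) = 0
      · exfalso
        rw [h.Vmul _ _ hx.1 hy.1] at h1
        rw [h.Vmul _ _ hx.1 hz.1] at h2
        rw [h.Vmul _ _ hy.1 hz.1] at h3
        have hx2 := hx.2.1
        revert h1 h2 h3 hx2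
        generalize V x = a
        generalize V y = b
        generalize V z = c
        revert a b c
        decide
      · have e : x * y * z = x * (y * z) := by ring
        rw [e] at hV ⊢
        exact S_mul h hx (S_mul h hy hz h3) hV
    · have e : x * y * z = y * (x * z) := by ring
      rw [e] at hV ⊢
      exact S_mul h hy (S_mul h hx hz h2) hV
  · exact S_mul h (S_mul h hx hy h1) hz hV

/-- `t` preserves small elements -/
def P (V : K → ZMod 11) (t : K) : Prop := t ≠ 0 ∧ V t = 0 ∧ ∀ s, S V s → S V (s * t)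

theorem not_P (h : Dat K V χ) {t : K} (h0 : t ≠ 0) (hV : V t = 0) (hP : ¬ P V t) :
    ∃ u s, S V u ∧ S V s ∧ t⁻¹ = u * s := by
  unfold P at hP
  push Not at hP
  obtain ⟨s, hs, hst⟩ := hP h0 hV
  have a0 : s * t ≠ 0 := mul_ne_zero hs.1 h0
  have a1 : V (s * t) = V s := by rw [h.Vmul _ _ hs.1 h0, hV, add_zero]
  rcases S_or h a0 (by rw [a1]; exact hs.2.1) with h1 | h1
  · exact absurd h1 hst
  · refine ⟨_, _, h1, hs, ?_⟩
    have := hs.1
    field_simp

theorem P_of_mul (h : Dat K V χ) {u s : K} (hu : S V u) (hs : S V s) (hV : V (u * s) = 0) :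
    P V (u * s) := by
  refine ⟨mul_ne_zero hu.1 hs.1, hV, fun z hz => ?_⟩
  have e : z * (u * s) = z * u * s := by ring
  rw [e]
  apply S_mul3 h hz hu hs
  rw [← e, h.Vmul _ _ hz.1 (mul_ne_zero hu.1 hs.1), hV, add_zero]
  exact hz.2.1

theorem P_or (h : Dat K V χ) {t : K} (h0 : t ≠ 0) (hV : V t = 0) : P V t ∨ P V t⁻¹ := by
  by_cases hP : P V t
  · exact Or.inl hP
  · right
    obtain ⟨u, s, hu, hs, e⟩ := not_P h h0 hV hP
    have hV' : V (t⁻¹) = 0 := by rw [Vinv h h0, hV, neg_zero]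
    rw [e] at hV' ⊢
    exact P_of_mul h hu hs hV'

/-- membership in the valuation ring -/
def M (V : K → ZMod 11) (x : K) : Prop := x = 0 ∨ S V x ∨ P V x

theorem P_one (h : Dat K V χ) : P V (1 : K) :=
  ⟨one_ne_zero, Vone h, fun s hs => by rw [mul_one]; exact hs⟩

theorem P_mul (h : Dat K V χ) {x y : K} (hx : P V x) (hy : P V y) : P V (x * y) := by
  refine ⟨mul_ne_zero hx.1 hy.1, by rw [h.Vmul _ _ hx.1 hy.1, hx.2.1, hy.2.1, add_zero], ?_⟩
  intro s hs
  have := hy.2.2 _ (hx.2.2 s hs)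
  rwa [mul_assoc] at this

theorem P_neg (h : Dat K V χ) {x : K} (hx : P V x) : P V (-x) := by
  refine ⟨neg_ne_zero.2 hx.1, by rw [Vneg' h hx.1]; exact hx.2.1, ?_⟩
  intro s hs
  have := S_neg h (hx.2.2 s hs)
  rwa [← mul_neg] at this

theorem M_mul (h : Dat K V χ) {x y : K} (hx : M V x) (hy : M V y) : M V (x * y) := by
  rcases hx with rfl | hx | hx
  · left; simp
  · rcases hy with rfl | hy | hy
    · left; simp
    · by_cases hV : V (x * y) = 0
      · right; right; exact P_of_mul h hx hy hV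
      · right; left; exact S_mul h hx hy hV
    · right; left; exact hy.2.2 x hx
  · rcases hy with rfl | hy | hy
    · left; simp
    · right; left; rw [mul_comm]; exact hx.2.2 y hy
    · right; right; exact P_mul h hx hy

theorem M_neg (h : Dat K V χ) {x : K} (hx : M V x) : M V (-x) := by
  rcases hx with rfl | hx | hx
  · left; simp
  · right; left; exact S_neg h hx
  · right; right; exact P_neg h hx

theorem M_or_inv (h : Dat K V χ) (x : K) : M V x ∨ M V x⁻¹ := by
  by_cases h0 : x = 0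
  · left; left; exact h0
  · by_cases hV : V x = 0
    · rcases P_or h h0 hV with h1 | h1
      · left; right; right; exact h1
      · right; right; right; exact h1
    · rcases S_or h h0 hV with h1 | h1
      · left; right; left; exact h1
      · right; right; left; exact h1

theorem M_one_add (h : Dat K V χ) {z : K} (hz : M V z) : M V (1 + z) := by
  rcases hz with rfl | hz | hz
  · right; right; rw [add_zero]; exact P_one h
  · right; right
    exact ⟨ne1 h hz.2.1, hz.2.2, fun s hs => S_one_add h hz hs⟩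
  · by_cases h0 : 1 + z = 0
    · left; exact h0
    · by_cases hV : V (1 + z) = 0
      · right; right
        by_contra hP
        obtain ⟨s, hs, hst⟩ : ∃ s, S V s ∧ ¬ S V (s * (1 + z)) := by
          by_contra hcon
          push Not at hcon
          exact hP ⟨h0, hV, hcon⟩
        have a0 : s * (1 + z) ≠ 0 := mul_ne_zero hs.1 h0
        have a1 : V (s * (1 + z)) = V s := by rw [h.Vmul _ _ hs.1 h0, hV, add_zero]
        have hu : S V (s * (1 + z))⁻¹ := by
          rcases S_or h a0 (by rw [a1]; exact hs.2.1) with h1 | h1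
          · exact absurd h1 hst
          · exact h1
        have hs2 := hz.2.2 s hs
        have h3 := S_div h hs hs2
        have hs1 := ne1 h hs.2.1
        have h4 : V ((1 + s) * (1 + s * z / (1 + s))) = 0 := by
          rw [h.Vmul _ _ hs1 (ne1 h h3.2.1), hs.2.2, h3.2.2, add_zero]
        have e1 : (1 + s) * (1 + s * z / (1 + s)) = 1 + s * (1 + z) := by
          field_simp; ring
        rw [e1] at h4
        exact hst ⟨a0, by rw [a1]; exact hs.2.1, h4⟩
      · right; left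
        by_contra hS
        have hr : S V (1 + z)⁻¹ := by
          rcases S_or h h0 hV with h1 | h1
          · exact absurd h1 hS
          · exact h1
        have h2 := hz.2.2 _ hr
        have h3 := S_neg h hr
        have e : 1 + -(1 + z)⁻¹ = (1 + z)⁻¹ * z := by field_simp; ring
        have h4 := h3.2.2
        rw [e] at h4
        exact h2.2.1 h4

theorem M_add (h : Dat K V χ) {x y : K} (hx : M V x) (hy : M V y) : M V (x + y) := by
  by_cases hx0 : x = 0
  · rw [hx0, zero_add]; exact hy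
  by_cases hy0 : y = 0
  · rw [hy0, add_zero]; exact hx
  rcases M_or_inv h (x / y) with h1 | h1
  · have := M_mul h hy (M_one_add h h1)
    have e : y * (1 + x / y) = x + y := by field_simp; ring
    rwa [e] at this
  · rw [inv_div] at h1
    have := M_mul h hx (M_one_add h h1)
    have e : x * (1 + y / x) = x + y := by field_simp
    rwa [e] at this

/-- the valuation ring -/
def ring (h : Dat K V χ) : ValuationSubring K where
  carrier := {x | M V x}
  mul_mem' := fun ha hb => M_mul h ha hb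
  one_mem' := Or.inr (Or.inr (P_one h))
  add_mem' := fun ha hb => M_add h ha hb
  zero_mem' := Or.inl rfl
  neg_mem' := fun ha => M_neg h ha
  mem_or_inv_mem' := fun x => M_or_inv h x

theorem mem_ring (h : Dat K V χ) (x : K) : x ∈ ring h ↔ M V x := Iff.rfl

end P1

/-- Part P1 (VAL) -/
theorem val {K : Type*} [Field K] {V : K → ZMod 11} {χ : K → ZMod 27} (h : Dat K V χ) :
    ∃ O : ValuationSubring K,
      (∀ x : K, x ≠ 0 → V x ≠ 0 → (x ∈ O ↔ V (1 + x) = 0)) ∧
      (∀ x : K, x ≠ 0 → V x = 0 → x ∈ O → x⁻¹ ∉ O →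
        ∃ u s : K, u ≠ 0 ∧ s ≠ 0 ∧ V u ≠ 0 ∧ V s ≠ 0 ∧ u ∈ O ∧ s ∈ O ∧ x = u * s) := by
  refine ⟨P1.ring h, ?_, ?_⟩
  · intro x hx hV
    rw [P1.mem_ring]
    constructor
    · rintro (h1 | h1 | h1)
      · exact absurd h1 hx
      · exact h1.2.2
      · exact absurd h1.2.1 hV
    · intro h1
      exact Or.inr (Or.inl ⟨hx, hV, h1⟩)
  · intro x hx hV h1 h2
    rw [P1.mem_ring] at h1 h2
    have hP : ¬ P1.P V x⁻¹ := fun h3 => h2 (Or.inr (Or.inr h3))
    have hV' : V x⁻¹ = 0 := by rw [P1.Vinv h hx, hV, neg_zero]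
    obtain ⟨u, s, hu, hs, e⟩ := P1.not_P h (inv_ne_zero hx) hV' hP
    rw [inv_inv] at e
    exact ⟨u, s, hu.1, hs.1, hu.2.1, hs.2.1, Or.inr (Or.inl hu), Or.inr (Or.inl hs), e⟩

end HFQ
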