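import Pool.Agent.Helper43.HF.Defs

set_option autoImplicit false
set_option linter.all false

/-! HF swarm, part P2 (LEV) (helper79): the levels of the valuation ring. -/

namespace HFQ

section lev

variable {K : Type*} [Field K] {V : K → ZMod 11} {χ : K → ZMod 27}

lemma Dat.V_one (h : Dat K V χ) : V 1 = 0 := by
  have := h.Vmul 1 1 one_ne_zero one_ne_zero
  rw [mul_one] at this
  exact (add_eq_left.1 this.symm)

lemma Dat.X_one (h : Dat K V χ) : χ 1 = 1 := by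
  have h1 := h.Xmul 1 1 one_ne_zero one_ne_zero
  rw [mul_one] at h1
  have h2 := h.Xunit 1 one_ne_zero
  exact (h2.mul_left_cancel (by rw [mul_one]; exact h1)).symm

lemma Dat.V_inv (h : Dat K V χ) {x : K} (hx : x ≠ 0) : V x⁻¹ = - V x := by
  have h1 := h.Vmul x x⁻¹ hx (inv_ne_zero hx)
  rw [mul_inv_cancel₀ hx, h.V_one] at h1
  exact (neg_eq_of_add_eq_zero_right h1.symm).symm

lemma Dat.V_div (h : Dat K V χ) {x y : K} (hx : x ≠ 0) (hy : y ≠ 0) : V (x / y) = V x - V y := by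
  rw [div_eq_mul_inv, h.Vmul x _ hx (inv_ne_zero hy), h.V_inv hy, sub_eq_add_neg]

lemma Dat.V_pow (h : Dat K V χ) {x : K} (hx : x ≠ 0) (n : ℕ) : V (x ^ n) = n * V x := by
  induction n with
  | zero => simp [h.V_one]
  | succ n ih =>
    rw [pow_succ, h.Vmul _ _ (pow_ne_zero n hx) hx, ih]; push_cast; ring

/-- the residues for which `χ (1 + x) = 1` -/
def Big (j : ZMod 11) : Prop := j ≠ 1 ∧ j ≠ 2 ∧ j ≠ 3 ∧ j ≠ 4

instance (j : ZMod 11) : Decidable (Big j) := by unfold Big; infer_instance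

variable {O : ValuationSubring K}

lemma v_sub_one {s : K} (hs : O.valuation s < 1) : O.valuation (s - 1) = 1 := by
  have h1 : O.valuation (1 + -s) = 1 := by
    apply Valuation.map_one_add_of_lt
    rwa [Valuation.map_neg]
  have h2 : s - 1 = -(1 + -s) := by ring
  rw [h2, Valuation.map_neg, h1]

/-- (0) -/
lemma lev0 (h : Dat K V χ) (h1 : ∀ x : K, x ≠ 0 → V x ≠ 0 → (x ∈ O ↔ V (1 + x) = 0))
    {x : K} (hx : O.valuation x = 1) : V x = 0 := by
  by_contra hV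
  have hx0 : x ≠ 0 := by
    rintro rfl
    rw [map_zero] at hx
    exact zero_ne_one hx
  have hO : x ∈ O := (O.valuation_le_one_iff x).1 hx.le
  have hO' : x⁻¹ ∈ O := (O.valuation_le_one_iff x⁻¹).1 (by rw [map_inv₀, hx, inv_one])
  have e1 := (h1 x hx0 hV).1 hO
  have hV' : V x⁻¹ ≠ 0 := by rw [h.V_inv hx0]; exact neg_ne_zero.2 hV
  have e2 := (h1 x⁻¹ (inv_ne_zero hx0) hV').1 hO'
  have hne : 1 + x ≠ 0 := by
    intro h0
    have : x = -1 := by linear_combination h0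
    rw [this, h.Vneg] at hV
    exact hV rfl
  have e3 : 1 + x⁻¹ = (1 + x) * x⁻¹ := by field_simp; ring
  rw [e3, h.Vmul _ _ hne (inv_ne_zero hx0), e1, zero_add] at e2
  exact hV' e2

lemma lt_of_mem (h : Dat K V χ) (h1 : ∀ x : K, x ≠ 0 → V x ≠ 0 → (x ∈ O ↔ V (1 + x) = 0))
    {x : K} (hx : O.valuation x ≤ 1) (hV : V x ≠ 0) : O.valuation x < 1 :=
  lt_of_le_of_ne hx fun h' => hV (lev0 h h1 h')

/-- a factor `1 + w` with `w = u (s - 1) / (1 + u)` -/
lemma step (h : Dat K V χ) (h1 : ∀ x : K, x ≠ 0 → V x ≠ 0 → (x ∈ O ↔ V (1 + x) = 0))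
    {u s : K} (hu : u ≠ 0) (hvu : O.valuation u < 1) (hvs : O.valuation s < 1) :
    ∃ w : K, w ≠ 0 ∧ O.valuation w < 1 ∧ V w = V u ∧ 1 + u ≠ 0 ∧
      (1 + w ≠ 0 → V (1 + u * s) = V (1 + u) + V (1 + w) ∧
        χ (1 + u * s) = χ (1 + u) * χ (1 + w)) := by
  have hv1 : O.valuation (1 + u) = 1 := Valuation.map_one_add_of_lt O.valuation hvu
  have hne : 1 + u ≠ 0 := by
    intro h0; rw [h0, map_zero] at hv1; exact zero_ne_one hv1
  have hvs1 := v_sub_one hvs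
  have hs1 : s - 1 ≠ 0 := by
    intro h0; rw [h0, map_zero] at hvs1; exact zero_ne_one hvs1
  refine ⟨u * (s - 1) / (1 + u), div_ne_zero (mul_ne_zero hu hs1) hne, ?_, ?_, hne, ?_⟩
  · rw [map_div₀, map_mul, hvs1, hv1, mul_one, div_one]; exact hvu
  · rw [h.V_div (mul_ne_zero hu hs1) hne, h.Vmul u _ hu hs1, lev0 h h1 hvs1, lev0 h h1 hv1]
    ring
  · intro hw
    have e : 1 + u * s = (1 + u) * (1 + u * (s - 1) / (1 + u)) := by field_simp; ring
    rw [e, h.Vmul _ _ hne hw, h.Xmul _ _ hne hw]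
    exact ⟨rfl, rfl⟩

lemma one_add_ne {x : K} (hx : O.valuation x < 1) : 1 + x ≠ 0 := by
  intro h0
  have := Valuation.map_one_add_of_lt O.valuation hx
  rw [h0, map_zero] at this
  exact zero_ne_one this

/-- (1) -/
lemma lev1 (h : Dat K V χ) (h1 : ∀ x : K, x ≠ 0 → V x ≠ 0 → (x ∈ O ↔ V (1 + x) = 0))
    {x : K} (hx : O.valuation x < 1) (hV : V x ≠ 0) :
    V (1 + x) = 0 ∧ A1 (χ (1 + x)) ∧ (Big (V x) → χ (1 + x) = 1) ∧
      (V x = 3 ∨ V x = 4 → A2 (χ (1 + x))) := by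
  by_cases hx0 : x = 0
  · subst hx0
    rw [add_zero, h.V_one, h.X_one]
    exact ⟨rfl, by decide, fun _ => rfl, fun _ => by decide⟩
  have e := (h1 x hx0 hV).1 ((O.valuation_le_one_iff x).1 hx.le)
  exact ⟨e, h.U4 x hx0 hV e, fun hb => h.U2 x hx0 hV hb.1 hb.2.1 hb.2.2.1 hb.2.2.2 e,
    fun h34 => h.U3 x hx0 h34 e⟩

lemma big_or : ∀ a b : ZMod 11, a ≠ 0 → a + b = 0 → Big a ∨ Big b := by decide

lemma lev2aux (h : Dat K V χ) (h1 : ∀ x : K, x ≠ 0 → V x ≠ 0 → (x ∈ O ↔ V (1 + x) = 0))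
    {u s : K} (hu : u ≠ 0) (hVu : V u ≠ 0) (hVs : V s ≠ 0)
    (huO : u ∈ O) (hsO : s ∈ O) (hb : Big (V u)) :
    V (1 + u * s) = 0 ∧ χ (1 + u * s) = 1 := by
  have hvu := lt_of_mem h h1 ((O.valuation_le_one_iff u).2 huO) hVu
  have hvs := lt_of_mem h h1 ((O.valuation_le_one_iff s).2 hsO) hVs
  obtain ⟨w, hw0, hvw, hVw, hne, hst⟩ := step h h1 hu hvu hvs
  obtain ⟨e1, e2⟩ := hst (one_add_ne hvw)
  obtain ⟨a1, _, a3, _⟩ := lev1 h h1 hvu hVu
  obtain ⟨b1, _, b3, _⟩ := lev1 h h1 hvw (by rw [hVw]; exact hVu)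
  rw [e1, e2, a1, b1, a3 hb, b3 (by rw [hVw]; exact hb)]
  exact ⟨add_zero _, mul_one _⟩

/-- (2), together with (1): the values on `1 + m` -/
lemma lev2 (h : Dat K V χ) (h1 : ∀ x : K, x ≠ 0 → V x ≠ 0 → (x ∈ O ↔ V (1 + x) = 0))
    (h2 : ∀ x : K, x ≠ 0 → V x = 0 → x ∈ O → x⁻¹ ∉ O →
        ∃ u s : K, u ≠ 0 ∧ s ≠ 0 ∧ V u ≠ 0 ∧ V s ≠ 0 ∧ u ∈ O ∧ s ∈ O ∧ x = u * s)
    {x : K} (hx : O.valuation x < 1) :
    V (1 + x) = 0 ∧ A1 (χ (1 + x)) ∧ (Big (V x) → χ (1 + x) = 1) ∧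
      (V x = 3 ∨ V x = 4 → A2 (χ (1 + x))) := by
  by_cases hV : V x = 0
  · by_cases hx0 : x = 0
    · subst hx0
      rw [add_zero, h.V_one, h.X_one]
      exact ⟨rfl, by decide, fun _ => rfl, fun _ => by decide⟩
    have hxO : x ∈ O := (O.valuation_le_one_iff x).1 hx.le
    have hxi : x⁻¹ ∉ O := by
      intro hc
      have h3 := (O.valuation_le_one_iff x⁻¹).2 hc
      rw [map_inv₀] at h3
      have hpos : 0 < O.valuation x := zero_lt_iff.2 ((Valuation.ne_zero_iff _).2 hx0)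
      have h4 : 1 < (O.valuation x)⁻¹ := (one_lt_inv₀ hpos).2 hx
      exact absurd h3 (not_le.2 h4)
    obtain ⟨u, s, hu, hs, hVu, hVs, huO, hsO, rfl⟩ := h2 x hx0 hV hxO hxi
    have hsum : V u + V s = 0 := by rw [← h.Vmul u s hu hs]; exact hV
    have key : V (1 + u * s) = 0 ∧ χ (1 + u * s) = 1 := by
      rcases big_or _ _ hVu hsum with hb | hb
      · exact lev2aux h h1 hu hVu hVs huO hsO hb
      · rw [mul_comm u s]
        exact lev2aux h h1 hs hVs hVu hsO huO hb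
    rw [key.1, key.2]
    exact ⟨rfl, by decide, fun _ => rfl, fun _ => by decide⟩
  · exact lev1 h h1 hx hV

/-- (3) -/
lemma lev3 (h : Dat K V χ) (h1 : ∀ x : K, x ≠ 0 → V x ≠ 0 → (x ∈ O ↔ V (1 + x) = 0))
    (P : ZMod 27 → Prop) (hP1 : P 1) (hPm : ∀ a b, P a → P b → P (a * b)) (j : ZMod 11)
    (hj : ∀ x : K, O.valuation x < 1 → V x = j → P (χ (1 + x)))
    {z : K} (hz : z ≠ 0) (hvz : O.valuation z < 1) (hVz : V z = j) {r : K}
    (hr : O.valuation r ≤ 1) : P (χ (1 + z * r)) := by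
  rcases lt_or_eq_of_le hr with hr | hr
  · obtain ⟨w, hw0, hvw, hVw, hne, hst⟩ := step h h1 hz hvz hr
    rw [(hst (one_add_ne hvw)).2]
    exact hPm _ _ (hj z hvz hVz) (hj w hvw (hVw.trans hVz))
  · have hr0 : r ≠ 0 := by
      rintro rfl; rw [map_zero] at hr; exact zero_ne_one hr
    apply hj
    · rw [map_mul, hr, mul_one]; exact hvz
    · rw [h.Vmul z r hz hr0, lev0 h h1 hr, add_zero, hVz]

lemma big_tau : ∀ j : ZMod 11, Big j ∨ Big (1 - j) := by decide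

lemma A2_mul : ∀ a b : ZMod 27, A2 a → A2 b → A2 (a * b) := by decide

lemma A1_cancel : ∀ a b : ZMod 27, A1 (a * b) → A1 b → A1 a := by decide

end lev

/-- Part P2 (LEV) -/
theorem lev {K : Type*} [Field K] {V : K → ZMod 11} {χ : K → ZMod 27} (h : Dat K V χ)
    (O : ValuationSubring K)
    (h1 : ∀ x : K, x ≠ 0 → V x ≠ 0 → (x ∈ O ↔ V (1 + x) = 0))
    (h2 : ∀ x : K, x ≠ 0 → V x = 0 → x ∈ O → x⁻¹ ∉ O →
        ∃ u s : K, u ≠ 0 ∧ s ≠ 0 ∧ V u ≠ 0 ∧ V s ≠ 0 ∧ u ∈ O ∧ s ∈ O ∧ x = u * s) :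
    ∃ τ : K, Lev K V χ O τ := by
  have M := fun {x : K} (hx : O.valuation x < 1) => lev2 h h1 h2 hx
  -- I5
  have I5 : ∀ {z : K}, z ≠ 0 → O.valuation z < 1 → Big (V z) → ∀ {r : K}, O.valuation r ≤ 1 →
      χ (1 + z * r) = 1 := by
    intro z hz hvz hb r hr
    exact lev3 h h1 (fun y => y = 1) rfl (by rintro a b rfl rfl; rw [mul_one]) (V z)
      (fun x hx hVx => (M hx).2.2.1 (by rw [hVx]; exact hb)) hz hvz rfl hr
  have I3 : ∀ {z : K}, z ≠ 0 → O.valuation z < 1 → (V z = 3 ∨ V z = 4) → ∀ {r : K},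
      O.valuation r ≤ 1 → A2 (χ (1 + z * r)) := by
    intro z hz hvz hb r hr
    exact lev3 h h1 A2 (by decide) A2_mul (V z)
      (fun x hx hVx => (M hx).2.2.2 (by rw [hVx]; exact hb)) hz hvz rfl hr
  obtain ⟨τ, hτ0, hVτ, hχτ, hVτ1, hχτ1⟩ := h.E1
  have hVτne : V τ ≠ 0 := by rw [hVτ]; decide
  have hvτ : O.valuation τ < 1 :=
    lt_of_mem h h1 ((O.valuation_le_one_iff τ).2 ((h1 τ hτ0 hVτne).2 hVτ1)) hVτne
  have hpos : ∀ {x : K}, x ≠ 0 → 0 < O.valuation x := fun hx =>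
    zero_lt_iff.2 ((Valuation.ne_zero_iff _).2 hx)
  -- unif
  have unif : ∀ x : K, O.valuation x < 1 → O.valuation x ≤ O.valuation τ := by
    intro x hx
    by_contra hlt
    push Not at hlt
    have hx0 : x ≠ 0 := by
      rintro rfl
      rw [map_zero] at hlt
      exact absurd hlt (not_lt.2 zero_le')
    have hq : O.valuation (τ / x) < 1 := by
      rw [map_div₀, div_lt_one₀ (hpos hx0)]; exact hlt
    have hq0 : τ / x ≠ 0 := div_ne_zero hτ0 hx0
    have hbad : χ (1 + τ) = 1 := by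
      rcases big_tau (V x) with hb | hb
      · have := I5 hx0 hx hb hq.le
        rwa [mul_div_cancel₀ τ hx0] at this
      · have hb' : Big (V (τ / x)) := by rw [h.V_div hτ0 hx0, hVτ]; exact hb
        have := I5 hq0 hq hb' hx.le
        rwa [div_mul_cancel₀ τ hx0] at this
    rw [hχτ1] at hbad
    revert hbad; decide
  -- powers of τ
  have hvp : ∀ n : ℕ, n ≠ 0 → O.valuation (τ ^ n) < 1 := by
    intro n hn
    rw [map_pow]
    exact pow_lt_one₀ zero_le' hvτ hn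
  have hdivle : ∀ {z : K} (k : ℕ), O.valuation z ≤ O.valuation τ ^ k ↔
      O.valuation (z / τ ^ k) ≤ 1 := by
    intro z k
    rw [map_div₀, map_pow, div_le_one₀ (by rw [← map_pow]; exact hpos (pow_ne_zero k hτ0))]
  -- the level of an element which is not in the trivial level
  have D : ∀ (n : ℕ), n < 11 → ∀ z : K, z ≠ 0 → V z = n → O.valuation z ≤ 1 → χ (1 + z) ≠ 1 →
      O.valuation z = O.valuation τ ^ n := by
    intro n hn z hz hVz hvz hχ
    have hVk : ∀ k : ℕ, V (z / τ ^ k) = (n : ZMod 11) - k := by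
      intro k
      rw [h.V_div hz (pow_ne_zero k hτ0), h.V_pow hτ0, hVτ, hVz, mul_one]
    have hle : ∀ k : ℕ, k ≤ n → O.valuation z ≤ O.valuation τ ^ k := by
      intro k
      induction k with
      | zero => intro _; rw [pow_zero]; exact hvz
      | succ k ih =>
        intro hk
        have h3 := (hdivle k).1 (ih (by omega))
        have hne : V (z / τ ^ k) ≠ 0 := by
          rw [hVk, ← Nat.cast_sub (by omega : k ≤ n)]
          intro h0
          rw [ZMod.natCast_eq_zero_iff] at h0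
          have := Nat.le_of_dvd (by omega) h0
          omega
        have h4 := unif _ (lt_of_mem h h1 h3 hne)
        rw [map_div₀, map_pow, div_le_iff₀ (by rw [← map_pow]; exact hpos (pow_ne_zero k hτ0))] at h4
        rw [pow_succ, mul_comm]
        exact h4
    have h5 := (hdivle n).1 (hle n le_rfl)
    have h6 : O.valuation (z / τ ^ n) = 1 := by
      by_contra hne
      have hlt := lt_of_le_of_ne h5 hne
      have hb : Big (V (z / τ ^ n)) := by rw [hVk, sub_self]; decide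
      have h7 : O.valuation (τ ^ n) ≤ 1 := by
        rw [map_pow]; exact pow_le_one₀ zero_le' hvτ.le
      have := I5 (div_ne_zero hz (pow_ne_zero n hτ0)) hlt hb h7
      rw [div_mul_cancel₀ z (pow_ne_zero n hτ0)] at this
      exact hχ this
    rw [map_div₀, map_pow] at h6
    exact (div_eq_one_iff_eq (by rw [← map_pow]; exact (hpos (pow_ne_zero n hτ0)).ne')).1 h6
  have memle : ∀ {z : K}, z ≠ 0 → V z ≠ 0 → V (1 + z) = 0 → O.valuation z ≤ 1 := fun hz hV h3 =>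
    (O.valuation_le_one_iff _).2 ((h1 _ hz hV).2 h3)
  have z4 : ∃ z : K, O.valuation z = O.valuation τ ^ 4 ∧ χ (1 + z) = 10 := by
    obtain ⟨z, hz, hVz, _, hV1, hχ1⟩ := h.E5
    exact ⟨z, D 4 (by norm_num) z hz (by rw [hVz]; rfl)
      (memle hz (by rw [hVz]; decide) hV1) (by rw [hχ1]; decide), hχ1⟩
  refine ⟨τ, ?_⟩
  refine
    { t0 := hτ0
      t1 := hvτ
      t2 := hχτ
      V1 := fun x hx => lev0 h h1 hx
      m1 := fun x hx => ⟨(M hx).1, (M hx).2.1⟩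
      m3 := ?_
      m5 := ?_
      unif := unif
      c2 := ?_
      z2 := ?_
      w2 := ?_
      z4 := z4
      R2 := ?_ }
  · intro x hx
    have h3 := (hdivle 3).1 hx
    have hV3 : V (τ ^ 3) = 3 := by rw [h.V_pow hτ0, hVτ]; rfl
    have := I3 (pow_ne_zero 3 hτ0) (hvp 3 (by norm_num)) (Or.inl hV3) h3
    rwa [mul_div_cancel₀ x (pow_ne_zero 3 hτ0)] at this
  · intro x hx
    have h3 := (hdivle 5).1 hx
    have hV5 : Big (V (τ ^ 5)) := by rw [h.V_pow hτ0, hVτ]; decide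
    have := I5 (pow_ne_zero 5 hτ0) (hvp 5 (by norm_num)) hV5 h3
    rwa [mul_div_cancel₀ x (pow_ne_zero 5 hτ0)] at this
  · obtain ⟨t, ht, hVt, hχt, hV1, hχ1⟩ := h.E2
    have h3 := D 1 (by norm_num) t ht (by rw [hVt]; rfl)
      (memle ht (by rw [hVt]; decide) hV1) (by rw [hχ1]; decide)
    rw [pow_one] at h3
    refine ⟨t / τ, ?_, ?_⟩
    · rw [map_div₀, h3, div_self (hpos hτ0).ne']
    · have h4 := h.Xmul (t / τ) τ (div_ne_zero ht hτ0) hτ0
      rw [div_mul_cancel₀ t hτ0, hχt, hχτ, mul_one] at h4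
      exact h4.symm
  · obtain ⟨z, hz, hVz, _, hV1, hχ1⟩ := h.E4
    exact ⟨z, D 2 (by norm_num) z hz (by rw [hVz]; rfl)
      (memle hz (by rw [hVz]; decide) hV1) (by rw [hχ1]; decide), hχ1⟩
  · obtain ⟨z, hz, hVz, _, hV1, hχ1⟩ := h.E3
    exact ⟨z, D 2 (by norm_num) z hz (by rw [hVz]; rfl)
      (memle hz (by rw [hVz]; decide) hV1) (by rw [hχ1]; decide), hχ1⟩
  · -- R2
    have hV2 : ∀ {z : K}, O.valuation z = O.valuation τ ^ 2 → z ≠ 0 ∧ V z = 2 := by
      intro z hz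
      have hz0 : z ≠ 0 := by
        rintro rfl
        rw [map_zero] at hz
        exact (pow_ne_zero 2 (hpos hτ0).ne') hz.symm
      refine ⟨hz0, ?_⟩
      have h3 : O.valuation (z / τ ^ 2) = 1 := by
        rw [map_div₀, map_pow, hz, div_self (pow_ne_zero 2 (hpos hτ0).ne')]
      have h4 := lev0 h h1 h3
      rw [h.V_div hz0 (pow_ne_zero 2 hτ0), h.V_pow hτ0, hVτ] at h4
      have h5 : V z = ((2 : ℕ) : ZMod 11) * 1 := sub_eq_zero.1 h4
      rw [h5]; rfl
    intro z hz hA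
    obtain ⟨hz0, hVz⟩ := hV2 hz
    have hvz : O.valuation z < 1 := by rw [hz, ← map_pow]; exact hvp 2 (by norm_num)
    by_cases hχ : χ (1 + z) = 1
    · obtain ⟨y, hy, hy1⟩ := z4
      have hv1z : O.valuation (1 + z) = 1 := Valuation.map_one_add_of_lt O.valuation hvz
      have hvw : O.valuation (y * (1 + z) / z) < 1 := by
        rw [map_div₀, map_mul, hv1z, mul_one, hy, hz]
        have : O.valuation τ ^ 4 / O.valuation τ ^ 2 = O.valuation τ ^ 2 := by
          rw [div_eq_iff (pow_ne_zero 2 (hpos hτ0).ne'), ← pow_add]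
        rw [this, ← map_pow]
        exact hvp 2 (by norm_num)
      obtain ⟨b1, b2, _, _⟩ := M hvw
      have hne := one_add_ne hvw
      have hz' : z * (1 + y * (1 + z) / z) ≠ 0 := mul_ne_zero hz0 hne
      have hVz' : V (z * (1 + y * (1 + z) / z)) = 2 := by
        rw [h.Vmul _ _ hz0 hne, b1, add_zero, hVz]
      have hvy : O.valuation y < 1 := by rw [hy, ← map_pow]; exact hvp 4 (by norm_num)
      have e1 : 1 + z * (1 + y * (1 + z) / z) = (1 + z) * (1 + y) := by field_simp; ring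
      have hV1' : V (1 + z * (1 + y * (1 + z) / z)) = 0 := by
        rw [e1, h.Vmul _ _ (one_add_ne hvz) (one_add_ne hvy), (M hvz).1, (M hvy).1, add_zero]
      have hχ1' : χ (1 + z * (1 + y * (1 + z) / z)) = 10 := by
        rw [e1, h.Xmul _ _ (one_add_ne hvz) (one_add_ne hvy), hχ, hy1, one_mul]
      have h6 := h.U5 _ hz' hVz' hV1' (by rw [hχ1']; decide) (by rw [hχ1']; decide)
      rw [h.Xmul _ _ hz0 hne] at h6
      exact A1_cancel _ _ h6 b2
    · exact h.U5 z hz0 hVz (M hvz).1 hA hχ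

end HFQ
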