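import Pool.Agent.Helper43.HF.Defs

/-!
# HF swarm, part P3 (RES)
-/

set_option linter.all false

namespace HFQ

/-- the second 3-adic digit -/
def lg (x : ZMod 27) : ZMod 3 := ((x.val / 3 : ℕ) : ZMod 3)

theorem lg_mul : ∀ x y : ZMod 27, A1 x → A1 y → lg (x * y) = lg x + lg y := by decide +kernel

theorem lg_A2 : ∀ x : ZMod 27, A2 x → lg x = 0 := by decide +kernel

theorem A2_lg : ∀ x : ZMod 27, A1 x → lg x = 0 → A2 x := by decide +kernel

theorem lg_eq : ∀ x y : ZMod 27, A1 x → A1 y → lg x = lg y → 3 * x = 3 * y := by decide +kernel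

theorem A1_mul : ∀ x y : ZMod 27, A1 x → A1 y → A1 (x * y) := by decide +kernel

theorem A1_of_mul : ∀ x y : ZMod 27, A1 x → A1 (x * y) → A1 y := by decide +kernel

theorem A1_sq' : ∀ x y : ZMod 27, x * y = 1 → A1 (x ^ 2) := by decide +kernel

theorem A1_sq (x : ZMod 27) (hx : IsUnit x) : A1 (x ^ 2) := by
  obtain ⟨y, hy⟩ := hx.exists_right_inv
  exact A1_sq' x y hy

theorem not_two : ∀ x y : ZMod 27, A1 x → A1 y → x ≠ y * 2 := by decide +kernel

section

variable {K : Type*} [Field K] {V : K → ZMod 11} {χ : K → ZMod 27} {O : ValuationSubring K} {τ : K}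

theorem one_add_ne {x : K} (hx : O.valuation x < 1) : 1 + x ≠ 0 := by
  intro h0
  have := O.valuation.map_one_add_of_lt hx
  rw [h0, map_zero] at this
  exact zero_ne_one this

theorem Lev.vt0 (L : Lev K V χ O τ) : O.valuation τ ≠ 0 := (Valuation.ne_zero_iff _).2 L.t0

theorem Lev.tpow_lt (L : Lev K V χ O τ) {n : ℕ} (hn : n ≠ 0) : O.valuation τ ^ n < 1 :=
  pow_lt_one₀ zero_le' L.t1 hn

theorem Lev.lt1 (L : Lev K V χ O τ) {w : K} (hw : O.valuation w ≤ 1) :
    O.valuation (τ ^ 2 * w) < 1 := by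
  rw [map_mul, map_pow]
  calc O.valuation τ ^ 2 * O.valuation w ≤ O.valuation τ ^ 2 * 1 := mul_le_mul_right hw _
    _ = O.valuation τ ^ 2 := mul_one _
    _ < 1 := L.tpow_lt two_ne_zero

/-- `Φ (w)` is the second digit of `χ (1 + τ ^ 2 w)`. -/
def Ph (χ : K → ZMod 27) (τ w : K) : ZMod 3 := lg (χ (1 + τ ^ 2 * w))

theorem Lev.A1P (L : Lev K V χ O τ) {w : K} (hw : O.valuation w ≤ 1) : A1 (χ (1 + τ ^ 2 * w)) :=
  (L.m1 _ (L.lt1 hw)).2

theorem Lev.Ph_zero (L : Lev K V χ O τ) {w : K} (hw : O.valuation w < 1) : Ph χ τ w = 0 := by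
  apply lg_A2
  apply L.m3
  rw [map_mul, map_pow, pow_succ (O.valuation τ) 2]
  exact mul_le_mul_right (L.unif w hw) _

theorem Lev.Ph_add (h : Dat K V χ) (L : Lev K V χ O τ) {w w' : K} (hw : O.valuation w ≤ 1)
    (hw' : O.valuation w' ≤ 1) : Ph χ τ (w + w') = Ph χ τ w + Ph χ τ w' := by
  have hs : O.valuation (w + w') ≤ 1 := le_trans (O.valuation.map_add w w') (max_le hw hw')
  have n1 := one_add_ne (L.lt1 hw)
  have n2 := one_add_ne (L.lt1 hw')
  have n3 := one_add_ne (L.lt1 hs)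
  have v3 : O.valuation (1 + τ ^ 2 * (w + w')) = 1 := O.valuation.map_one_add_of_lt (L.lt1 hs)
  set q : K := (τ ^ 2 * w) * (τ ^ 2 * w') / (1 + τ ^ 2 * (w + w')) with hq
  have vq : O.valuation q ≤ O.valuation τ ^ 3 := by
    rw [hq, map_div₀, v3, div_one, map_mul, map_mul, map_mul, map_pow]
    calc O.valuation τ ^ 2 * O.valuation w * (O.valuation τ ^ 2 * O.valuation w')
        ≤ O.valuation τ ^ 2 * 1 * (O.valuation τ ^ 2 * 1) :=
          mul_le_mul' (mul_le_mul_right hw _) (mul_le_mul_right hw' _)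
      _ = O.valuation τ ^ 3 * O.valuation τ := by rw [mul_one, ← pow_add, ← pow_succ]
      _ ≤ O.valuation τ ^ 3 * 1 := mul_le_mul_right L.t1.le _
      _ = O.valuation τ ^ 3 := mul_one _
  have hA2 := L.m3 q vq
  have vq1 : O.valuation q < 1 := lt_of_le_of_lt vq (L.tpow_lt three_ne_zero)
  have e1 : (1 + τ ^ 2 * w) * (1 + τ ^ 2 * w') = (1 + τ ^ 2 * (w + w')) * (1 + q) := by
    rw [hq, mul_add (1 + τ ^ 2 * (w + w')), mul_one, mul_div_cancel₀ _ n3]
    ring
  have e2 : χ (1 + τ ^ 2 * w) * χ (1 + τ ^ 2 * w') = χ (1 + τ ^ 2 * (w + w')) * χ (1 + q) := by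
    rw [← h.Xmul _ _ n1 n2, e1, h.Xmul _ _ n3 (one_add_ne vq1)]
  have e3 := congrArg lg e2
  rw [lg_mul _ _ (L.A1P hw) (L.A1P hw'), lg_mul _ _ (L.A1P hs) (L.m1 q vq1).2, lg_A2 _ hA2,
    add_zero] at e3
  exact e3.symm

theorem Lev.Ph_neg (h : Dat K V χ) (L : Lev K V χ O τ) {w : K} (hw : O.valuation w ≤ 1) :
    Ph χ τ (-w) = -Ph χ τ w := by
  have h1 := L.Ph_add h hw (w' := -w) (by rw [Valuation.map_neg]; exact hw)
  rw [add_neg_cancel, L.Ph_zero (w := 0) (by rw [map_zero]; exact zero_lt_one)] at h1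
  exact (neg_eq_of_add_eq_zero_right h1.symm).symm

theorem Lev.Ph_sub (h : Dat K V χ) (L : Lev K V χ O τ) {w w' : K} (hw : O.valuation w ≤ 1)
    (hw' : O.valuation w' ≤ 1) : Ph χ τ (w - w') = Ph χ τ w - Ph χ τ w' := by
  rw [sub_eq_add_neg, L.Ph_add h hw (by rw [Valuation.map_neg]; exact hw'), L.Ph_neg h hw',
    sub_eq_add_neg]

theorem Lev.Ph_three (h : Dat K V χ) (L : Lev K V χ O τ) {w : K} (hw : O.valuation w ≤ 1) :
    Ph χ τ (3 * w) = 0 := by
  have h2 : O.valuation (w + w) ≤ 1 := le_trans (O.valuation.map_add w w) (max_le hw hw)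
  have h1 : (3 : K) * w = w + w + w := by ring
  rw [h1, L.Ph_add h h2 hw, L.Ph_add h hw hw]
  generalize Ph χ τ w = x
  revert x
  decide

theorem Lev.chi_unit (h : Dat K V χ) (L : Lev K V χ O τ) {x y : K} (hx : O.valuation x = 1)
    (hy : O.valuation (x - y) < 1) : ∃ a : ZMod 27, A1 a ∧ χ x = χ y * a := by
  have hy1 : O.valuation y = 1 := by
    have : y = x + (-(x - y)) := by ring
    rw [this]
    rw [Valuation.map_add_eq_of_lt_left]
    · exact hx
    · rw [Valuation.map_neg, hx]; exact hy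
  have hy0 : y ≠ 0 := by
    rintro rfl
    rw [map_zero] at hy1
    exact zero_ne_one hy1
  set m : K := (x - y) / y with hm
  have vm : O.valuation m < 1 := by
    rw [hm, map_div₀, hy1, div_one]; exact hy
  refine ⟨χ (1 + m), (L.m1 m vm).2, ?_⟩
  rw [← h.Xmul _ _ hy0 (one_add_ne vm)]
  congr 1
  rw [hm, mul_add, mul_one, mul_div_cancel₀ _ hy0]
  ring

theorem Lev.Ph_congr (h : Dat K V χ) (L : Lev K V χ O τ) {x y : K} (hx : O.valuation x ≤ 1)
    (hy : O.valuation (x - y) < 1) : Ph χ τ x = Ph χ τ y := by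
  have h1 : y = x - (x - y) := by ring
  rw [h1, L.Ph_sub h hx hy.le, L.Ph_zero hy, sub_zero]

theorem Lev.Ph_sep (h : Dat K V χ) (L : Lev K V χ O τ) {c : K} (hc : O.valuation c = 1)
    (hc2 : χ c = 2) {w : K} (hw : O.valuation w ≤ 1) (h1 : Ph χ τ w = 0)
    (h2 : Ph χ τ (w / c) = 0) : O.valuation w < 1 := by
  by_contra hcon
  have hw1 : O.valuation w = 1 := le_antisymm hw (not_lt.1 hcon)
  have hc0 : c ≠ 0 := by
    rintro rfl
    rw [map_zero] at hc
    exact zero_ne_one hc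
  have hw0 : w ≠ 0 := by
    rintro rfl
    rw [map_zero] at hw1
    exact zero_ne_one hw1
  have vwc : O.valuation (w / c) = 1 := by rw [map_div₀, hw1, hc, div_one]
  have hτ2 : ∀ y : K, y ≠ 0 → χ (τ ^ 2 * y) = χ y := by
    intro y hy
    rw [h.Xmul _ _ (pow_ne_zero 2 L.t0) hy, pow_two, h.Xmul _ _ L.t0 L.t0, L.t2, one_mul, one_mul]
  have k1 := L.R2 (τ ^ 2 * w) (by rw [map_mul, map_pow, hw1, mul_one])
    (A2_lg _ (L.A1P hw) h1)
  have k2 := L.R2 (τ ^ 2 * (w / c)) (by rw [map_mul, map_pow, vwc, mul_one])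
    (A2_lg _ (L.A1P vwc.le) h2)
  rw [hτ2 _ hw0] at k1
  rw [hτ2 _ (div_ne_zero hw0 hc0)] at k2
  refine not_two _ _ k1 k2 ?_
  rw [← hc2, ← h.Xmul _ _ (div_ne_zero hw0 hc0) hc0, div_mul_cancel₀ _ hc0]

theorem Lev.v3 (h : Dat K V χ) (L : Lev K V χ O τ) : O.valuation (3 : K) < 1 := by
  obtain ⟨c, hc, hc2⟩ := L.c2
  have h3 : O.valuation (3 : K) ≤ 1 := by
    rw [ValuationSubring.valuation_le_one_iff]
    exact_mod_cast natCast_mem O 3
  apply L.Ph_sep h hc hc2 h3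
  · have := L.Ph_three h (w := 1) (by rw [map_one])
    rwa [mul_one] at this
  · have := L.Ph_three h (w := 1 / c) (by rw [map_div₀, map_one, hc, div_one])
    rwa [mul_one_div] at this

theorem Lev.v2 (h : Dat K V χ) (L : Lev K V χ O τ) : O.valuation (2 : K) = 1 := by
  have h1 : (2 : K) = -(1 + (-3)) := by norm_num
  rw [h1, Valuation.map_neg, O.valuation.map_one_add_of_lt]
  rw [Valuation.map_neg]
  exact L.v3 h

theorem Lev.res_zero {x : O} : IsLocalRing.residue O x = 0 ↔ O.valuation (x : K) < 1 := by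
  rw [IsLocalRing.residue_eq_zero_iff]
  exact ValuationSubring.valuation_lt_one_iff O x

theorem Lev.fin (h : Dat K V χ) (L : Lev K V χ O τ) : Finite (IsLocalRing.ResidueField O) := by
  obtain ⟨c, hc, hc2⟩ := L.c2
  choose s hs using IsLocalRing.residue_surjective (R := O)
  have hle : ∀ x : O, O.valuation (x : K) ≤ 1 := fun x => (O.valuation_le_one_iff _).2 x.2
  have hlc : ∀ x : O, O.valuation ((x : K) / c) ≤ 1 := fun x => by
    rw [map_div₀, hc, div_one]; exact hle x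
  refine Finite.of_injective (β := ZMod 3 × ZMod 3)
    (fun x => (Ph χ τ (s x), Ph χ τ ((s x : K) / c))) ?_
  intro x y hxy
  have h1 : Ph χ τ (s x) = Ph χ τ (s y) := congrArg Prod.fst hxy
  have h2 : Ph χ τ ((s x : K) / c) = Ph χ τ ((s y : K) / c) := congrArg Prod.snd hxy
  have h3 : O.valuation (((s x - s y : O) : O) : K) < 1 := by
    apply L.Ph_sep h hc hc2 (hle _)
    · push_cast
      rw [L.Ph_sub h (hle _) (hle _), h1, sub_self]
    · push_cast
      rw [sub_div, L.Ph_sub h (hlc _) (hlc _), h2, sub_self]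
  rw [← Lev.res_zero, map_sub, hs, hs, sub_eq_zero] at h3
  exact h3

theorem Lev.sq_of_isSquare {x : K} (hx : O.valuation x = 1)
    (hs : IsSquare (IsLocalRing.residue O ⟨x, (O.valuation_le_one_iff x).1 hx.le⟩)) :
    ∃ y : K, O.valuation y = 1 ∧ O.valuation (x - y ^ 2) < 1 := by
  obtain ⟨r, hr⟩ := hs
  obtain ⟨y, rfl⟩ := IsLocalRing.residue_surjective r
  have h1 : O.valuation (x - (y : K) ^ 2) < 1 := by
    have h2 : IsLocalRing.residue O (⟨x, (O.valuation_le_one_iff x).1 hx.le⟩ - y * y) = 0 := by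
      rw [map_sub, hr, map_mul, sub_self]
    rw [Lev.res_zero] at h2
    push_cast at h2
    rw [pow_two]
    exact h2
  refine ⟨y, ?_, h1⟩
  have h3 : (y : K) ^ 2 = x + (-(x - (y : K) ^ 2)) := by ring
  have h4 : O.valuation ((y : K) ^ 2) = 1 := by
    rw [h3, Valuation.map_add_eq_of_lt_left]
    · exact hx
    · rw [Valuation.map_neg, hx]; exact h1
  rw [map_pow] at h4
  rcases pow_eq_one_iff.1 h4 with h5 | h5
  · exact h5
  · exact absurd h5 two_ne_zero

theorem Lev.sq (h : Dat K V χ) (L : Lev K V χ O τ) {x : K} (hx : O.valuation x = 1)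
    (hA : A1 (χ x)) : ∃ y : K, O.valuation y = 1 ∧ O.valuation (x - y ^ 2) < 1 := by
  classical
  haveI := L.fin h
  letI := Fintype.ofFinite (IsLocalRing.ResidueField O)
  obtain ⟨c, hc, hc2⟩ := L.c2
  have nz : ∀ {y : K}, O.valuation y = 1 → y ≠ 0 := by
    rintro y hy rfl
    rw [map_zero] at hy
    exact zero_ne_one hy
  have hA1 : ∀ {z y : K}, O.valuation z = 1 → O.valuation y = 1 → O.valuation (z - y ^ 2) < 1 →
      A1 (χ z) := by
    intro z y hz hy hzy
    obtain ⟨a, ha, ha2⟩ := L.chi_unit h hz hzy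
    rw [ha2, pow_two, h.Xmul _ _ (nz hy) (nz hy), ← pow_two]
    exact A1_mul _ _ (A1_sq _ (h.Xunit _ (nz hy))) ha
  by_contra hcon
  have ns : ¬ IsSquare (IsLocalRing.residue O ⟨x, (O.valuation_le_one_iff x).1 hx.le⟩) :=
    fun hs => hcon (Lev.sq_of_isSquare hx hs)
  have nc : ¬ IsSquare (IsLocalRing.residue O ⟨c, (O.valuation_le_one_iff c).1 hc.le⟩) := by
    intro hs
    obtain ⟨y, hy, hy2⟩ := Lev.sq_of_isSquare hc hs
    have := hA1 hc hy hy2
    rw [hc2] at this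
    revert this
    decide
  have hcx : O.valuation (c * x) = 1 := by rw [map_mul, hc, hx, mul_one]
  have hsq : IsSquare (IsLocalRing.residue O ⟨c * x, (O.valuation_le_one_iff _).1 hcx.le⟩) := by
    have h1 : (⟨c * x, (O.valuation_le_one_iff _).1 hcx.le⟩ : O) =
      ⟨c, (O.valuation_le_one_iff c).1 hc.le⟩ * ⟨x, (O.valuation_le_one_iff x).1 hx.le⟩ := rfl
    rw [h1, map_mul]
    have q1 := quadraticChar_neg_one_iff_not_isSquare.2 ns
    have q2 := quadraticChar_neg_one_iff_not_isSquare.2 nc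
    rw [← quadraticChar_one_iff_isSquare, map_mul, q1, q2]
    · norm_num
    · rw [← map_mul]
      intro h0
      rw [Lev.res_zero] at h0
      have h0' : O.valuation (c * x) < 1 := h0
      rw [hcx] at h0'
      exact lt_irrefl _ h0'
  obtain ⟨y, hy, hy2⟩ := Lev.sq_of_isSquare hcx hsq
  have h3 := hA1 hcx hy hy2
  rw [h.Xmul _ _ (nz hc) (nz hx), hc2, mul_comm] at h3
  have h4 := A1_of_mul _ _ hA h3
  revert h4
  decide

theorem d3 : ∀ d x : ZMod 3, d ≠ 0 → x ≠ 0 → x = d ∨ x = -d := by decide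

theorem lg13 : lg 13 = 1 := by decide

theorem lg10 : lg 10 = 0 := by decide

theorem A2_10 : A2 10 := by decide

/-- Part P3 (RES) -/
theorem res {K : Type*} [Field K] {V : K → ZMod 11} {χ : K → ZMod 27} (h : Dat K V χ)
    {O : ValuationSubring K} {τ : K} (L : Lev K V χ O τ) :
    O.valuation (3 : K) < 1 ∧ ∀ C : ZMod 27, A1 C →
      ∃ e : K, O.valuation e = 1 ∧ 3 * χ (1 + τ ^ 2 * e ^ 2) = 3 * C := by
  refine ⟨L.v3 h, ?_⟩
  intro C hC
  have nz : ∀ {y : K}, O.valuation y = 1 → y ≠ 0 := by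
    rintro y hy rfl
    rw [map_zero] at hy
    exact zero_ne_one hy
  have hτ2 : ∀ y : K, y ≠ 0 → χ (τ ^ 2 * y) = χ y := by
    intro y hy
    rw [h.Xmul _ _ (pow_ne_zero 2 L.t0) hy, pow_two, h.Xmul _ _ L.t0 L.t0, L.t2, one_mul, one_mul]
  have hv2 : O.valuation (τ ^ 2) ≠ 0 := (Valuation.ne_zero_iff _).2 (pow_ne_zero 2 L.t0)
  have hdiv : ∀ z : K, O.valuation z = O.valuation τ ^ 2 →
      O.valuation (z / τ ^ 2) = 1 ∧ τ ^ 2 * (z / τ ^ 2) = z := by
    intro z hz
    refine ⟨?_, mul_div_cancel₀ _ (pow_ne_zero 2 L.t0)⟩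
    rw [map_div₀, hz, ← map_pow, div_self hv2]
  -- it is enough to get the second digit
  suffices hsuf : ∃ e : K, O.valuation e = 1 ∧ Ph χ τ (e ^ 2) = lg C by
    obtain ⟨e, he, he2⟩ := hsuf
    refine ⟨e, he, lg_eq _ _ (L.A1P ?_) hC he2⟩
    rw [map_pow, he, one_pow]
  by_cases h0 : lg C = 0
  · obtain ⟨z, hz, hz2⟩ := L.w2
    obtain ⟨hw, hw2⟩ := hdiv z hz
    have k1 := L.R2 z hz (by rw [hz2]; exact A2_10)
    rw [← hw2, hτ2 _ (nz hw)] at k1
    obtain ⟨e, he, he2⟩ := L.sq h hw k1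
    refine ⟨e, he, ?_⟩
    rw [← L.Ph_congr h hw.le he2, h0]
    show lg (χ (1 + τ ^ 2 * (z / τ ^ 2))) = 0
    rw [hw2, hz2, lg10]
  · obtain ⟨z, hz, hz2⟩ := L.z2
    obtain ⟨hw, hw2⟩ := hdiv z hz
    set w : K := z / τ ^ 2 with hwdef
    have hPw : Ph χ τ w = 1 := by
      show lg (χ (1 + τ ^ 2 * w)) = 1
      rw [hw2, hz2, lg13]
    have h2 := L.v2 h
    have h20 : (2 : K) ≠ 0 := nz h2
    have va : O.valuation ((w + 1) / 2) ≤ 1 := by
      rw [map_div₀, h2, div_one]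
      exact le_trans (O.valuation.map_add _ _) (max_le hw.le (by rw [map_one]))
    have vb : O.valuation ((w - 1) / 2) ≤ 1 := by
      rw [map_div₀, h2, div_one]
      exact le_trans (O.valuation.map_sub _ _) (max_le hw.le (by rw [map_one]))
    have hab : w = ((w + 1) / 2) ^ 2 - ((w - 1) / 2) ^ 2 := by
      field_simp
      ring
    have hsq : ∀ x : K, O.valuation x ≤ 1 → O.valuation (x ^ 2) ≤ 1 := by
      intro x hx
      rw [map_pow]
      exact pow_le_one₀ zero_le' hx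
    have hP : Ph χ τ (((w + 1) / 2) ^ 2) - Ph χ τ (((w - 1) / 2) ^ 2) = 1 := by
      rw [← L.Ph_sub h (hsq _ va) (hsq _ vb), ← hab, hPw]
    have hex : ∃ e : K, O.valuation e ≤ 1 ∧ Ph χ τ (e ^ 2) ≠ 0 := by
      by_cases ha : Ph χ τ (((w + 1) / 2) ^ 2) = 0
      · refine ⟨_, vb, ?_⟩
        intro hb
        rw [ha, hb, sub_zero] at hP
        exact zero_ne_one hP
      · exact ⟨_, va, ha⟩
    obtain ⟨e, he, hed⟩ := hex
    have he1 : O.valuation e = 1 := by
      refine le_antisymm he (not_lt.1 fun hlt => hed ?_)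
      apply L.Ph_zero
      rw [map_pow]
      exact pow_lt_one₀ zero_le' hlt two_ne_zero
    rcases d3 _ _ hed h0 with h1 | h1
    · exact ⟨e, he1, h1.symm⟩
    · obtain ⟨i, hi, hi2⟩ := L.sq h (x := -1) (by rw [Valuation.map_neg, map_one])
        (by rw [h.Xneg]; decide)
      refine ⟨i * e, by rw [map_mul, hi, he1, mul_one], ?_⟩
      have h3 : O.valuation (-(e ^ 2) - (i * e) ^ 2) < 1 := by
        have : -(e ^ 2) - (i * e) ^ 2 = (-1 - i ^ 2) * e ^ 2 := by ring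
        rw [this, map_mul, map_pow, he1, one_pow, mul_one]
        exact hi2
      rw [← L.Ph_congr h (x := -(e ^ 2)) (by rw [Valuation.map_neg, map_pow, he1, one_pow]) h3,
        L.Ph_neg h (hsq e he), h1]

end

end HFQ
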