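import Pool.Agent.Helper43.HF.Defs

/-!
# HF swarm, part P4 (FIN)
-/

set_option linter.all false

namespace HFQ

namespace P4

theorem A1_mul : ∀ x y : ZMod 27, A1 x → A1 y → A1 (x * y) := by decide +kernel

theorem A2_mul : ∀ x y : ZMod 27, A2 x → A2 y → A2 (x * y) := by decide +kernel

theorem d7 : ∀ c : ZMod 27, A1 c → ∃ C : ZMod 27, A1 C ∧ C * c ^ 2 = 7 := by decide +kernel

theorem d13 : ∀ c : ZMod 27, A1 c → ∃ j : Fin 3, A2 (c * 13 ^ (j : ℕ)) := by decide +kernel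

theorem d10 : ∀ x : ZMod 27, A2 x → ∃ j : Fin 3, x * 10 ^ (j : ℕ) = 10 := by decide +kernel

theorem dC : ∀ x C : ZMod 27, A1 C → 3 * x = 3 * C → ∃ j : Fin 3, x * 10 ^ (j : ℕ) = C := by
  decide +kernel

theorem d16 : ∀ x : ZMod 27, A1 x → x ^ 2 = 16 → x = 4 := by decide +kernel

theorem A2_A1 : ∀ x : ZMod 27, A2 x → A1 x := by decide +kernel

section

variable {K : Type*} [Field K] {V : K → ZMod 11} {χ : K → ZMod 27} {O : ValuationSubring K} {τ : K}

theorem nz {y : K} (hy : O.valuation y = 1) : y ≠ 0 := by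
  rintro rfl
  rw [map_zero] at hy
  exact zero_ne_one hy

theorem v1 {x : K} (hx : O.valuation x < 1) : O.valuation (1 + x) = 1 :=
  O.valuation.map_one_add_of_lt hx

theorem n1 {x : K} (hx : O.valuation x < 1) : 1 + x ≠ 0 := nz (v1 hx)

theorem vt0 (L : Lev K V χ O τ) : O.valuation τ ≠ 0 := (Valuation.ne_zero_iff _).2 L.t0

theorem tlt (L : Lev K V χ O τ) {n : ℕ} (hn : n ≠ 0) : O.valuation τ ^ n < 1 :=
  pow_lt_one₀ zero_le' L.t1 hn

theorem tle (L : Lev K V χ O τ) {m n : ℕ} (hn : m ≤ n) : O.valuation τ ^ n ≤ O.valuation τ ^ m :=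
  pow_le_pow_right_of_le_one' L.t1.le hn

/-- `χ (1 + x + r) = χ (1 + x) χ (1 + r / (1 + x))` -/
theorem chi_add (h : Dat K V χ) {x r : K} (hx : O.valuation x < 1) (hr : O.valuation r < 1) :
    χ (1 + (x + r)) = χ (1 + x) * χ (1 + r / (1 + x)) ∧
      O.valuation (r / (1 + x)) = O.valuation r := by
  have hv : O.valuation (r / (1 + x)) = O.valuation r := by rw [map_div₀, v1 hx, div_one]
  refine ⟨?_, hv⟩
  rw [← h.Xmul _ _ (n1 hx) (n1 (by rw [hv]; exact hr))]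
  congr 1
  rw [mul_add, mul_one, mul_div_cancel₀ _ (n1 hx)]
  ring

theorem chi5 (h : Dat K V χ) (L : Lev K V χ O τ) {x r : K} (hx : O.valuation x < 1)
    (hr : O.valuation r ≤ O.valuation τ ^ 5) : χ (1 + (x + r)) = χ (1 + x) := by
  obtain ⟨h1, h2⟩ := chi_add h hx (lt_of_le_of_lt hr (tlt L (by norm_num)))
  rw [h1, L.m5 (r / (1 + x)) (by rw [h2]; exact hr), mul_one]

theorem chi3 (h : Dat K V χ) (L : Lev K V χ O τ) {x r : K} (hx : O.valuation x < 1)
    (hr : O.valuation r ≤ O.valuation τ ^ 3) : 3 * χ (1 + (x + r)) = 3 * χ (1 + x) := by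
  obtain ⟨h1, h2⟩ := chi_add h hx (lt_of_le_of_lt hr (tlt L (by norm_num)))
  have h3 : 3 * χ (1 + r / (1 + x)) = 3 := L.m3 (r / (1 + x)) (by rw [h2]; exact hr)
  rw [h1, mul_left_comm, h3, mul_comm]

theorem chi_one (L : Lev K V χ O τ) : χ 1 = 1 := by
  have := L.m5 0 (by rw [map_zero]; exact zero_le')
  rwa [add_zero] at this

theorem pow_sub {z : K} (hz : O.valuation z < 1) (j : ℕ) :
    O.valuation ((1 + z) ^ j - 1) ≤ O.valuation z := by
  induction j with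
  | zero => rw [pow_zero, sub_self, map_zero]; exact zero_le'
  | succ j ih =>
    have h1 : (1 + z) ^ (j + 1) - 1 = ((1 + z) ^ j - 1) * (1 + z) + z := by ring
    rw [h1]
    refine le_trans (O.valuation.map_add _ _) (max_le ?_ le_rfl)
    rw [map_mul, v1 hz, mul_one]
    exact ih

theorem chi_pow (h : Dat K V χ) (L : Lev K V χ O τ) {a : K} (ha : a ≠ 0) (j : ℕ) :
    χ (a ^ j) = χ a ^ j := by
  induction j with
  | zero => rw [pow_zero, pow_zero, chi_one L]
  | succ j ih => rw [pow_succ, pow_succ, h.Xmul _ _ (pow_ne_zero j ha) ha, ih]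

/-- `F (a) = (1 + a) ^ 2 / (4 a)` -/
def Fa (a : K) : K := (1 + a) ^ 2 / (4 * a)

theorem ratio {y g : K} (h2 : (2 : K) ≠ 0) (hy : 1 + y ≠ 0) (hy2 : 2 + y ≠ 0) (hg : 1 + g ≠ 0) :
    Fa ((1 + y) * (1 + g)) = Fa (1 + y) *
      (1 + (y * g / (2 + y) + ((1 + y) / (2 + y)) ^ 2 * g ^ 2) / (1 + g)) := by
  have h4 : (4 : K) ≠ 0 := by
    have : (4 : K) = 2 * 2 := by norm_num
    rw [this]; exact mul_ne_zero h2 h2
  have h5 : 1 + (1 + y) = 2 + y := by ring
  unfold Fa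
  rw [h5]
  field_simp
  ring

theorem v4 (h2 : O.valuation (2 : K) = 1) : O.valuation (4 : K) = 1 := by
  have : (4 : K) = 2 * 2 := by norm_num
  rw [this, map_mul, h2, mul_one]

theorem v2y (h2 : O.valuation (2 : K) = 1) {y : K} (hy : O.valuation y < 1) :
    O.valuation (2 + y) = 1 := by
  rw [Valuation.map_add_eq_of_lt_left]
  · exact h2
  · rw [h2]; exact hy

theorem Fa_ne (h2 : O.valuation (2 : K) = 1) {y : K} (hy : O.valuation y < 1) :
    Fa (1 + y) ≠ 0 := by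
  unfold Fa
  have h5 : 1 + (1 + y) = 2 + y := by ring
  rw [h5]
  exact div_ne_zero (pow_ne_zero 2 (nz (v2y h2 hy))) (mul_ne_zero (nz (v4 h2)) (n1 hy))

theorem vnat (n : ℕ) : O.valuation (n : K) ≤ 1 := by
  rw [ValuationSubring.valuation_le_one_iff]
  exact natCast_mem O n

/-- `3 χ (F (1 + y)) = 3 χ (1 + y ^ 2)` -/
theorem Fsq (h : Dat K V χ) (L : Lev K V χ O τ) (h3 : O.valuation (3 : K) < 1)
    (h2 : O.valuation (2 : K) = 1) {y : K} (hy : O.valuation y ≤ O.valuation τ) :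
    3 * χ (Fa (1 + y)) = 3 * χ (1 + y ^ 2) := by
  have hy1 : O.valuation y < 1 := lt_of_le_of_lt hy L.t1
  have e1 : Fa (1 + y) = 1 + (y ^ 2 + (-(y ^ 2 * (3 + 4 * y)) / (4 * (1 + y)))) := by
    unfold Fa
    have h40 : (4 : K) ≠ 0 := nz (v4 h2)
    have := n1 hy1
    field_simp
    ring
  rw [e1]
  apply chi3 h L
  · rw [map_pow]; exact pow_lt_one₀ zero_le' hy1 two_ne_zero
  · rw [map_div₀, Valuation.map_neg, map_mul, map_mul, v4 h2, v1 hy1, mul_one, div_one, map_pow,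
      pow_succ (O.valuation τ) 2]
    refine mul_le_mul' (pow_le_pow_left₀ zero_le' hy 2) ?_
    refine le_trans (O.valuation.map_add _ _) (max_le (L.unif _ h3) ?_)
    rw [map_mul, v4 h2, one_mul]
    exact hy

theorem sq_congr (h : Dat K V χ) (L : Lev K V χ O τ) {y y' : K}
    (hy : O.valuation y ≤ O.valuation τ) (hy' : O.valuation y' ≤ O.valuation τ)
    (hd : O.valuation (y' - y) ≤ O.valuation τ ^ 2) :
    3 * χ (1 + y' ^ 2) = 3 * χ (1 + y ^ 2) := by
  have e1 : y' ^ 2 = y ^ 2 + (y' - y) * (y' + y) := by ring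
  rw [e1]
  apply chi3 h L
  · rw [map_pow]; exact pow_lt_one₀ zero_le' (lt_of_le_of_lt hy L.t1) two_ne_zero
  · rw [map_mul, pow_succ (O.valuation τ) 2]
    exact mul_le_mul' hd (le_trans (O.valuation.map_add _ _) (max_le hy' hy))

theorem vsucc {y g : K} (hy : O.valuation y < 1) {r : _} (hyr : O.valuation y ≤ r)
    (hgr : O.valuation g ≤ r) : O.valuation (y + (1 + y) * g) ≤ r := by
  refine le_trans (O.valuation.map_add _ _) (max_le hyr ?_)
  rw [map_mul, v1 hy, one_mul]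
  exact hgr

theorem vkap (h2 : O.valuation (2 : K) = 1) {y : K} (hy : O.valuation y < 1) :
    O.valuation ((1 + y) / (2 + y)) = 1 := by
  rw [map_div₀, v1 hy, v2y h2 hy, div_one]

/-- step (c) -/
theorem stepC (h : Dat K V χ) (L : Lev K V χ O τ) (h2 : O.valuation (2 : K) = 1) {y X : K}
    (hy : O.valuation y = O.valuation τ) (hX : O.valuation X ≤ O.valuation τ ^ 4) :
    ∃ g : K, O.valuation g ≤ O.valuation τ ^ 3 ∧
      χ (Fa ((1 + y) * (1 + g))) = χ (Fa (1 + y)) * χ (1 + X) := by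
  have hy1 : O.valuation y < 1 := by rw [hy]; exact L.t1
  have hy0 : y ≠ 0 := by
    rintro rfl
    rw [map_zero] at hy
    exact vt0 L hy.symm
  have vg : O.valuation ((2 + y) * X / y) ≤ O.valuation τ ^ 3 := by
    rw [map_div₀, map_mul, v2y h2 hy1, one_mul, hy]
    rw [div_le_iff₀ (zero_lt_iff.2 (vt0 L)), ← pow_succ]
    exact hX
  set g : K := (2 + y) * X / y with hg
  have vg1 : O.valuation g < 1 := lt_of_le_of_lt vg (tlt L three_ne_zero)
  have hX1 : O.valuation X < 1 := lt_of_le_of_lt hX (tlt L four_ne_zero)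
  refine ⟨g, vg, ?_⟩
  rw [ratio (nz h2) (n1 hy1) (nz (v2y h2 hy1)) (n1 vg1)]
  have k0 := nz (v2y h2 hy1)
  have e1 : y * g / (2 + y) = X := by
    rw [hg]
    field_simp
  set κ : K := (1 + y) / (2 + y) with hκ
  have vκ : O.valuation κ = 1 := vkap h2 hy1
  have e2 : (y * g / (2 + y) + κ ^ 2 * g ^ 2) / (1 + g) =
      X + (κ ^ 2 * g ^ 2 - g * X) / (1 + g) := by
    rw [e1]
    have := n1 vg1
    field_simp
    ring
  rw [e2]
  have vr : O.valuation ((κ ^ 2 * g ^ 2 - g * X) / (1 + g)) ≤ O.valuation τ ^ 5 := by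
    rw [map_div₀, v1 vg1, div_one]
    refine le_trans (O.valuation.map_sub _ _) (max_le ?_ ?_)
    · rw [map_mul, map_pow, map_pow, vκ, one_pow, one_mul]
      calc O.valuation g ^ 2 ≤ (O.valuation τ ^ 3) ^ 2 := pow_le_pow_left₀ zero_le' vg 2
        _ = O.valuation τ ^ 6 := by rw [← pow_mul]
        _ ≤ O.valuation τ ^ 5 := tle L (by norm_num)
    · rw [map_mul]
      calc O.valuation g * O.valuation X ≤ O.valuation τ ^ 3 * O.valuation τ ^ 4 :=
            mul_le_mul' vg hX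
        _ = O.valuation τ ^ 7 := by rw [← pow_add]
        _ ≤ O.valuation τ ^ 5 := tle L (by norm_num)
  have hne : 1 + (X + (κ ^ 2 * g ^ 2 - g * X) / (1 + g)) ≠ 0 := by
    apply n1 (O := O)
    refine lt_of_le_of_lt (O.valuation.map_add _ _) (max_lt hX1 ?_)
    exact lt_of_le_of_lt vr (tlt L (by norm_num))
  rw [h.Xmul _ _ (Fa_ne h2 hy1) hne, chi5 h L hX1 vr]

/-- step (d) -/
theorem stepD (h : Dat K V χ) (L : Lev K V χ O τ) (h2 : O.valuation (2 : K) = 1) {y g : K}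
    (hy : O.valuation y ≤ O.valuation τ) (hg : O.valuation g ≤ O.valuation τ ^ 4) :
      χ (Fa ((1 + y) * (1 + g))) = χ (Fa (1 + y)) := by
  have hy1 : O.valuation y < 1 := lt_of_le_of_lt hy L.t1
  have vg1 : O.valuation g < 1 := lt_of_le_of_lt hg (tlt L four_ne_zero)
  rw [ratio (nz h2) (n1 hy1) (nz (v2y h2 hy1)) (n1 vg1)]
  set κ : K := (1 + y) / (2 + y) with hκ
  have vκ : O.valuation κ = 1 := vkap h2 hy1
  have vr : O.valuation ((y * g / (2 + y) + κ ^ 2 * g ^ 2) / (1 + g)) ≤ O.valuation τ ^ 5 := by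
    rw [map_div₀, v1 vg1, div_one]
    refine le_trans (O.valuation.map_add _ _) (max_le ?_ ?_)
    · rw [map_div₀, v2y h2 hy1, div_one, map_mul]
      calc O.valuation y * O.valuation g ≤ O.valuation τ * O.valuation τ ^ 4 :=
            mul_le_mul' hy hg
        _ = O.valuation τ ^ 5 := by rw [← pow_succ']
    · rw [map_mul, map_pow, map_pow, vκ, one_pow, one_mul]
      calc O.valuation g ^ 2 ≤ (O.valuation τ ^ 4) ^ 2 := pow_le_pow_left₀ zero_le' hg 2
        _ = O.valuation τ ^ 8 := by rw [← pow_mul]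
        _ ≤ O.valuation τ ^ 5 := tle L (by norm_num)
  rw [h.Xmul _ _ (Fa_ne h2 hy1) (n1 (lt_of_le_of_lt vr (tlt L (by norm_num)))), L.m5 _ vr, mul_one]

end

end P4

open P4 in
/-- Part P4 (FIN) -/
theorem fin {K : Type*} [Field K] {V : K → ZMod 11} {χ : K → ZMod 27} (h : Dat K V χ)
    {O : ValuationSubring K} {τ : K} (L : Lev K V χ O τ)
    (h3 : O.valuation (3 : K) < 1)
    (hr : ∀ C : ZMod 27, A1 C →
      ∃ e : K, O.valuation e = 1 ∧ 3 * χ (1 + τ ^ 2 * e ^ 2) = 3 * C) : False := by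
  have hm3 : O.valuation (-3 : K) < 1 := by rw [Valuation.map_neg]; exact h3
  have e2 : (2 : K) = (-1) * (1 + (-3)) := by norm_num
  have v2 : O.valuation (2 : K) = 1 := by
    rw [e2, map_mul, v1 hm3, Valuation.map_neg, map_one, mul_one]
  have h20 : (2 : K) ≠ 0 := nz v2
  have c2 : A1 (χ 2) := by
    rw [e2, h.Xmul _ _ (neg_ne_zero.2 one_ne_zero) (n1 hm3), h.Xneg, one_mul]
    exact (L.m1 _ hm3).2
  obtain ⟨C, hC, hC2⟩ := d7 _ c2
  obtain ⟨e, he, he2⟩ := hr C hC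
  -- `y₀`
  set y0 : K := τ * e with hy0
  have vy0 : O.valuation y0 = O.valuation τ := by rw [hy0, map_mul, he, mul_one]
  have vy0' : O.valuation y0 < 1 := by rw [vy0]; exact L.t1
  have hy02 : 3 * χ (1 + y0 ^ 2) = 3 * C := by rw [hy0, mul_pow]; exact he2
  -- (b)
  obtain ⟨z, hz, hz2⟩ := L.z2
  have vz : O.valuation z < 1 := by rw [hz]; exact tlt L two_ne_zero
  obtain ⟨j, hj⟩ := d13 _ (L.m1 _ vy0').2
  set y1 : K := y0 + (1 + y0) * ((1 + z) ^ (j : ℕ) - 1) with hy1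
  have a1 : 1 + y1 = (1 + y0) * (1 + z) ^ (j : ℕ) := by rw [hy1]; ring
  have vd : O.valuation (y1 - y0) ≤ O.valuation τ ^ 2 := by
    rw [hy1, add_sub_cancel_left, map_mul, v1 vy0', one_mul, ← hz]
    exact pow_sub vz j
  have hlt : O.valuation τ ^ 2 < O.valuation τ := by
    rw [pow_two]
    calc O.valuation τ * O.valuation τ < O.valuation τ * 1 :=
          mul_lt_mul_of_pos_left L.t1 (zero_lt_iff.2 (vt0 L))
      _ = O.valuation τ := mul_one _
  have vy1 : O.valuation y1 = O.valuation τ := by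
    have : y1 = y0 + (y1 - y0) := by ring
    rw [this, Valuation.map_add_eq_of_lt_left]
    · exact vy0
    · rw [vy0]; exact lt_of_le_of_lt vd hlt
  have vy1' : O.valuation y1 < 1 := by rw [vy1]; exact L.t1
  have A2a1 : A2 (χ (1 + y1)) := by
    rw [a1, h.Xmul _ _ (n1 vy0') (pow_ne_zero _ (n1 vz)), chi_pow h L (n1 vz), hz2]
    exact hj
  have F1 : 3 * χ (Fa (1 + y1)) = 3 * C := by
    rw [Fsq h L h3 v2 vy1.le, sq_congr h L vy0.le vy1.le vd, hy02]
  -- (c)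
  obtain ⟨w, hw, hw2⟩ := L.z4
  have vw : O.valuation w < 1 := by rw [hw]; exact tlt L four_ne_zero
  obtain ⟨i, hi⟩ := dC _ C hC F1
  obtain ⟨g, hg, hg2⟩ := stepC h L v2 (X := (1 + w) ^ (i : ℕ) - 1) vy1 (by
    rw [← hw]; exact pow_sub vw i)
  have vg1 : O.valuation g < 1 := lt_of_le_of_lt hg (tlt L three_ne_zero)
  set y2 : K := y1 + (1 + y1) * g with hy2
  have a2 : 1 + y2 = (1 + y1) * (1 + g) := by rw [hy2]; ring
  have vy2 : O.valuation y2 ≤ O.valuation τ := vsucc vy1' vy1.le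
    (le_trans hg (by
      have := tle L (m := 1) (n := 3) (by norm_num)
      rwa [pow_one] at this))
  have vy2' : O.valuation y2 < 1 := lt_of_le_of_lt vy2 L.t1
  have F2 : χ (Fa (1 + y2)) = C := by
    rw [a2, hg2, add_sub_cancel, chi_pow h L (n1 vw), hw2]
    exact hi
  have A2a2 : A2 (χ (1 + y2)) := by
    rw [a2, h.Xmul _ _ (n1 vy1') (n1 vg1)]
    exact A2_mul _ _ A2a1 (L.m3 _ hg)
  -- (d)
  obtain ⟨l, hl⟩ := d10 _ A2a2
  set g' : K := (1 + w) ^ (l : ℕ) - 1 with hg'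
  have vg' : O.valuation g' ≤ O.valuation τ ^ 4 := by rw [← hw]; exact pow_sub vw l
  have vg'1 : O.valuation g' < 1 := lt_of_le_of_lt vg' (tlt L four_ne_zero)
  have F3 : χ (Fa ((1 + y2) * (1 + g'))) = C := by rw [stepD h L v2 vy2 vg', F2]
  have X3 : χ ((1 + y2) * (1 + g')) = 10 := by
    rw [h.Xmul _ _ (n1 vy2') (n1 vg'1), hg', add_sub_cancel, chi_pow h L (n1 vw), hw2]
    exact hl
  set y3 : K := y2 + (1 + y2) * g' with hy3
  have a3 : (1 + y2) * (1 + g') = 1 + y3 := by rw [hy3]; ring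
  rw [a3] at F3 X3
  have vy3 : O.valuation y3 ≤ O.valuation τ := vsucc vy2' vy2
    (le_trans vg' (by
      have := tle L (m := 1) (n := 4) (by norm_num)
      rwa [pow_one] at this))
  have vy3' : O.valuation y3 < 1 := lt_of_le_of_lt vy3 L.t1
  -- (e)
  have e5 : 1 + (1 + y3) = 2 + y3 := by ring
  have v5 : O.valuation (1 + (1 + y3)) = 1 := by rw [e5]; exact v2y v2 vy3'
  have n5 : 1 + (1 + y3) ≠ 0 := nz v5
  have hsq : (1 + (1 + y3)) ^ 2 = (2 * 2) * ((1 + y3) * Fa (1 + y3)) := by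
    unfold Fa
    have := n1 vy3'
    have h40 : (4 : K) ≠ 0 := nz (v4 v2)
    field_simp
    ring
  have X5 : χ (1 + (1 + y3)) ^ 2 = 16 := by
    rw [← chi_pow h L n5, hsq, h.Xmul _ _ (mul_ne_zero h20 h20)
      (mul_ne_zero (n1 vy3') (Fa_ne v2 vy3')), h.Xmul _ _ h20 h20,
      h.Xmul _ _ (n1 vy3') (Fa_ne v2 vy3'), X3, F3]
    have : χ 2 * χ 2 * (10 * C) = 10 * (C * χ 2 ^ 2) := by ring
    rw [this, hC2]
    decide
  have A15 : A1 (χ (1 + (1 + y3))) := by
    have h6 : 1 + (1 + y3) = 2 * (1 + y3 / 2) := by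
      field_simp
      ring
    have v6 : O.valuation (y3 / 2) < 1 := by rw [map_div₀, v2, div_one]; exact vy3'
    rw [h6, h.Xmul _ _ h20 (n1 v6)]
    exact A1_mul _ _ c2 (L.m1 _ v6).2
  have X4 := d16 _ A15 X5
  exact h.U6 (1 + y3) (n1 vy3') n5 (L.V1 _ (v1 vy3')) (L.V1 _ v5) X3 X4

end HFQ
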