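import Pool.Agent.Helper43.HF.Defs

set_option autoImplicit false
set_option linter.all false

/-!
HF swarm, part P5 (QUAT), first half (helper79): 3-adic valuations and residues modulo 27 of
rational numbers, and the valuation of the form `a ^ 2 + b ^ 2 + 3 (c ^ 2 + d ^ 2)`.
-/

namespace HFQ

/-- the 3-adic valuation of a rational number -/
noncomputable def vq (r : ℚ) : ℤ := padicValRat 3 r

instance fact3 : Fact (Nat.Prime 3) := ⟨Nat.prime_three⟩

lemma vq_mul {r s : ℚ} (hr : r ≠ 0) (hs : s ≠ 0) : vq (r * s) = vq r + vq s :=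
  padicValRat.mul hr hs

lemma vq_one : vq 1 = 0 := by simp [vq]

lemma vq_neg (r : ℚ) : vq (-r) = vq r := padicValRat.neg r

lemma vq_three : vq 3 = 1 := by
  have : padicValRat 3 ((3 : ℕ) : ℚ) = 1 := padicValRat.self (p := 3) (by norm_num)
  simpa [vq] using this

lemma vq_zpow (n : ℤ) : vq ((3 : ℚ) ^ n) = n := by
  have this : padicValRat 3 ((3 : ℚ) ^ n) = n * padicValRat 3 (3 : ℚ) := padicValRat.zpow (3 : ℚ)
  have h3 := vq_three
  unfold vq at h3 ⊢
  rw [this, h3, mul_one]

lemma vq_sq {r : ℚ} (hr : r ≠ 0) : vq (r ^ 2) = 2 * vq r := by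
  rw [pow_two, vq_mul hr hr]; ring

lemma vq_inv (r : ℚ) : vq r⁻¹ = - vq r := padicValRat.inv r

/-- `r` is divisible by `3 ^ n` in the 3-adic integers -/
def ge (n : ℤ) (r : ℚ) : Prop := r = 0 ∨ n ≤ vq r

lemma ge_mono {m n : ℤ} (h : m ≤ n) {r : ℚ} (hr : ge n r) : ge m r := by
  rcases hr with h0 | h1
  · exact Or.inl h0
  · exact Or.inr (h.trans h1)

lemma ge_add {n : ℤ} {r s : ℚ} (hr : ge n r) (hs : ge n s) : ge n (r + s) := by
  rcases hr with rfl | hr
  · simpa using hs
  rcases hs with rfl | hs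
  · rw [add_zero]; exact Or.inr hr
  by_cases h : r + s = 0
  · exact Or.inl h
  · exact Or.inr ((le_min hr hs).trans (padicValRat.min_le_padicValRat_add h))

lemma ge_neg {n : ℤ} {r : ℚ} (hr : ge n r) : ge n (-r) := by
  rcases hr with rfl | hr
  · left; simp
  · right; rw [vq_neg]; exact hr

lemma ge_sub {n : ℤ} {r s : ℚ} (hr : ge n r) (hs : ge n s) : ge n (r - s) := by
  rw [sub_eq_add_neg]; exact ge_add hr (ge_neg hs)

lemma ge_mul {m n : ℤ} {r s : ℚ} (hr : ge m r) (hs : ge n s) : ge (m + n) (r * s) := by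
  by_cases hr0 : r = 0
  · left; rw [hr0, zero_mul]
  by_cases hs0 : s = 0
  · left; rw [hs0, mul_zero]
  right
  rw [vq_mul hr0 hs0]
  exact add_le_add (hr.resolve_left hr0) (hs.resolve_left hs0)

lemma ge_nat (k : ℕ) : ge 0 (k : ℚ) := by
  by_cases hk : k = 0
  · left; simp [hk]
  · right
    unfold vq
    rw [padicValRat.of_nat]
    positivity

lemma ge_one : ge 0 (1 : ℚ) := by simpa using ge_nat 1

lemma ge_self {r : ℚ} : ge (vq r) r := Or.inr le_rfl

lemma int_iff (r : ℚ) : ‖(r : ℚ_[3])‖ ≤ 1 ↔ ge 0 r := by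
  rw [Padic.eq_padicNorm]
  by_cases h : r = 0
  · simp [h, ge]
  · rw [padicNorm.eq_zpow_of_nonzero h]
    have : ge 0 r ↔ 0 ≤ padicValRat 3 r := by simp [ge, h, vq]
    rw [this]
    constructor
    · intro h1
      by_contra hc
      push Not at hc
      have h2 : (1 : ℚ) < ((3 : ℕ) : ℚ) ^ (-padicValRat 3 r) := by
        apply one_lt_zpow₀ (by norm_num) (by omega)
      have h3 : ((((3 : ℕ) : ℚ) ^ (-padicValRat 3 r) : ℚ) : ℝ) ≤ ((1 : ℚ) : ℝ) := by simpa using h1
      have := Rat.cast_le.1 h3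
      linarith
    · intro h1
      have h2 : ((3 : ℕ) : ℚ) ^ (-padicValRat 3 r) ≤ 1 := by
        apply zpow_le_one_of_nonpos₀ (by norm_num) (by omega)
      have h3 : ((((3 : ℕ) : ℚ) ^ (-padicValRat 3 r) : ℚ) : ℝ) ≤ ((1 : ℚ) : ℝ) := Rat.cast_le.2 h2
      simpa using h3

/-- residues modulo 27 of 3-adic integers -/
noncomputable def rh : ℤ_[3] →+* ZMod 27 := (PadicInt.toZModPow 3 : ℤ_[3] →+* ZMod (3 ^ 3))

/-- a 3-adically integral rational number as a 3-adic integer -/
noncomputable def mkZ (r : ℚ) (h : ‖(r : ℚ_[3])‖ ≤ 1) : ℤ_[3] := ⟨(r : ℚ_[3]), h⟩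

lemma mkZ_coe (r : ℚ) (h : ‖(r : ℚ_[3])‖ ≤ 1) : ((mkZ r h : ℤ_[3]) : ℚ_[3]) = (r : ℚ_[3]) := rfl

open Classical in
/-- residues modulo 27 of rational numbers -/
noncomputable def red (r : ℚ) : ZMod 27 :=
  if h : ‖(r : ℚ_[3])‖ ≤ 1 then rh (mkZ r h) else 0

lemma red_of {r : ℚ} (h : ge 0 r) : red r = rh (mkZ r ((int_iff r).2 h)) :=
  dif_pos ((int_iff r).2 h)

lemma red_add {r s : ℚ} (hr : ge 0 r) (hs : ge 0 s) : red (r + s) = red r + red s := by
  rw [red_of hr, red_of hs, red_of (ge_add hr hs), ← map_add]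
  have : mkZ (r + s) ((int_iff _).2 (ge_add hr hs)) =
      mkZ r ((int_iff _).2 hr) + mkZ s ((int_iff _).2 hs) := by
    apply PadicInt.ext
    rw [PadicInt.coe_add, mkZ_coe, mkZ_coe, mkZ_coe, Rat.cast_add]
  rw [this]

lemma red_mul {r s : ℚ} (hr : ge 0 r) (hs : ge 0 s) : red (r * s) = red r * red s := by
  have h := ge_mul hr hs
  rw [add_zero] at h
  rw [red_of hr, red_of hs, red_of h, ← map_mul]
  have : mkZ (r * s) ((int_iff _).2 h) =
      mkZ r ((int_iff _).2 hr) * mkZ s ((int_iff _).2 hs) := by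
    apply PadicInt.ext
    rw [PadicInt.coe_mul, mkZ_coe, mkZ_coe, mkZ_coe, Rat.cast_mul]
  rw [this]

lemma red_nat (k : ℕ) : red (k : ℚ) = k := by
  rw [red_of (ge_nat k)]
  have : mkZ (k : ℚ) ((int_iff _).2 (ge_nat k)) = (k : ℤ_[3]) := by
    apply PadicInt.ext
    rw [mkZ_coe, PadicInt.coe_natCast]
    push_cast
    rfl
  rw [this, map_natCast]

lemma red_one : red 1 = 1 := by simpa using red_nat 1

lemma red_zero : red 0 = 0 := by simpa using red_nat 0

lemma red_neg {r : ℚ} (hr : ge 0 r) : red (-r) = - red r := by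
  have := red_add hr (ge_neg hr)
  rw [add_neg_cancel, red_zero] at this
  exact (neg_eq_of_add_eq_zero_right this.symm).symm

lemma red_sub {r s : ℚ} (hr : ge 0 r) (hs : ge 0 s) : red (r - s) = red r - red s := by
  rw [sub_eq_add_neg, red_add hr (ge_neg hs), red_neg hs, sub_eq_add_neg]

lemma ge_div {n : ℤ} {r : ℚ} (k : ℕ) (h : ge n r) : ge (n - k) (r / 3 ^ k) := by
  have h1 : ge (-(k : ℤ)) ((3 : ℚ) ^ (-(k : ℤ))) := Or.inr (vq_zpow _).ge
  have := ge_mul h h1
  rw [zpow_neg, zpow_natCast] at this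
  exact this

lemma red_pow3 {r : ℚ} (k : ℕ) (h : ge k r) : red r = 3 ^ k * red (r / 3 ^ k) := by
  have h1 := ge_div k h
  rw [sub_self] at h1
  have h2 : r = ((3 ^ k : ℕ) : ℚ) * (r / 3 ^ k) := by
    push_cast; field_simp
  conv_lhs => rw [h2]
  rw [red_mul (ge_nat _) h1, red_nat]
  push_cast
  rfl

lemma red_ge1 {r : ℚ} (h : ge 1 r) : 9 * red r = 0 := by
  rw [red_pow3 1 (by simpa using h)]
  generalize red (r / 3 ^ 1) = y
  revert y; decide

lemma red_ge2 {r : ℚ} (h : ge 2 r) : 3 * red r = 0 := by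
  rw [red_pow3 2 (by simpa using h)]
  generalize red (r / 3 ^ 2) = y
  revert y; decide

lemma red_ge3 {r : ℚ} (h : ge 3 r) : red r = 0 := by
  rw [red_pow3 3 (by simpa using h)]
  generalize red (r / 3 ^ 3) = y
  revert y; decide

/-- units -/
lemma red_unit {r : ℚ} (h0 : r ≠ 0) (h : vq r = 0) : red r * red r⁻¹ = 1 := by
  rw [← red_mul (Or.inr h.ge) (Or.inr (by rw [vq_inv, h]; simp)), mul_inv_cancel₀ h0, red_one]

lemma red_sq {r : ℚ} (h0 : r ≠ 0) (h : vq r = 0) : 9 * red (r ^ 2) = 9 := by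
  have h1 := red_unit h0 h
  rw [pow_two, red_mul (Or.inr h.ge) (Or.inr h.ge)]
  generalize red r = x at *
  generalize red r⁻¹ = y at *
  revert x y; decide

lemma unit_ne {r : ℚ} (h0 : r ≠ 0) (h : vq r = 0) : 9 * red r ≠ 0 := by
  have h1 := red_unit h0 h
  generalize red r = x at *
  generalize red r⁻¹ = y at *
  revert x y; decide

/-- the unit part modulo 27 -/
noncomputable def ch (r : ℚ) : ZMod 27 := red (r * 3 ^ (-vq r))

lemma vq_unit {r : ℚ} (h0 : r ≠ 0) : vq (r * 3 ^ (-vq r)) = 0 := by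
  rw [vq_mul h0 (zpow_ne_zero _ (by norm_num)), vq_zpow]; ring

lemma ch_mul {r s : ℚ} (hr : r ≠ 0) (hs : s ≠ 0) : ch (r * s) = ch r * ch s := by
  unfold ch
  rw [← red_mul (Or.inr (vq_unit hr).ge) (Or.inr (vq_unit hs).ge), vq_mul hr hs]
  congr 1
  rw [neg_add, zpow_add₀ (by norm_num : (3 : ℚ) ≠ 0)]
  ring

lemma ch_of_unit {r : ℚ} (h : vq r = 0) : ch r = red r := by
  unfold ch; rw [h]; simp

lemma ch_one : ch 1 = 1 := by rw [ch_of_unit vq_one, red_one]

lemma ch_unit {r : ℚ} (hr : r ≠ 0) : IsUnit (ch r) := by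
  refine IsUnit.of_mul_eq_one (ch r⁻¹) ?_
  rw [← ch_mul hr (inv_ne_zero hr), mul_inv_cancel₀ hr, ch_one]

lemma ch_eq {r s : ℚ} (n : ℕ) (h : r = 3 ^ n * s) (hs0 : s ≠ 0) (hs : vq s = 0) :
    vq r = n ∧ ch r = red s := by
  have h3 : vq ((3 : ℚ) ^ n) = n := by
    have := vq_zpow n
    rwa [zpow_natCast] at this
  have h1 : vq r = n := by
    rw [h, vq_mul (pow_ne_zero _ (by norm_num)) hs0, h3, hs, add_zero]
  refine ⟨h1, ?_⟩
  unfold ch
  rw [h1, h, zpow_neg, zpow_natCast]
  congr 1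
  field_simp

lemma vq_nat {k : ℕ} (h : ¬ 3 ∣ k) : vq (k : ℚ) = 0 := by
  unfold vq
  rw [padicValRat.of_nat, padicValNat.eq_zero_of_not_dvd h]
  rfl

/-- sums of two squares -/
lemma sumsq (x y : ℚ) (h : x ≠ 0 ∨ y ≠ 0) :
    x ^ 2 + y ^ 2 ≠ 0 ∧ ∃ m : ℤ, vq (x ^ 2 + y ^ 2) = 2 * m ∧ ge m x ∧ ge m y := by
  have hne : x ^ 2 + y ^ 2 ≠ 0 := by
    rcases h with h | h
    · have := sq_nonneg y
      have : 0 < x ^ 2 := by positivity
      positivity
    · have := sq_nonneg x
      have : 0 < y ^ 2 := by positivity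
      positivity
  refine ⟨hne, ?_⟩
  by_cases hx : x = 0
  · have hy : y ≠ 0 := h.resolve_left (by simpa using hx)
    subst hx
    refine ⟨vq y, ?_, Or.inl rfl, ge_self⟩
    rw [zero_pow two_ne_zero, zero_add, vq_sq hy]
  by_cases hy : y = 0
  · subst hy
    refine ⟨vq x, ?_, ge_self, Or.inl rfl⟩
    rw [zero_pow two_ne_zero, add_zero, vq_sq hx]
  rcases lt_trichotomy (vq x) (vq y) with hlt | heq | hlt
  · refine ⟨vq x, ?_, ge_self, Or.inr hlt.le⟩
    have := padicValRat.add_eq_of_lt (p := 3) hne (pow_ne_zero 2 hx) (pow_ne_zero 2 hy)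
      (by have h1 := vq_sq hx; have h2 := vq_sq hy; unfold vq at h1 h2 hlt; omega)
    have h1 := vq_sq hx
    unfold vq at *
    rw [this, h1]
  · refine ⟨vq x, ?_, ge_self, Or.inr heq.le⟩
    -- scale to units
    let m := vq x
    let x' := x * 3 ^ (-m)
    let y' := y * 3 ^ (-m)
    have h3 : (3 : ℚ) ^ m ≠ 0 := zpow_ne_zero _ (by norm_num)
    have hx' : x = 3 ^ m * x' := by
      simp only [x']
      rw [zpow_neg]; field_simp
    have hy' : y = 3 ^ m * y' := by
      simp only [y']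
      rw [zpow_neg]; field_simp
    have hx0 : x' ≠ 0 := by
      intro h0; apply hx; rw [hx', h0, mul_zero]
    have hy0 : y' ≠ 0 := by
      intro h0; apply hy; rw [hy', h0, mul_zero]
    have hvx : vq x' = 0 := vq_unit hx
    have hvy : vq y' = 0 := by
      have := vq_unit hy
      rw [← heq] at this
      exact this
    have hne' : x' ^ 2 + y' ^ 2 ≠ 0 := by positivity
    have hge : ge 0 (x' ^ 2) := Or.inr (by rw [vq_sq hx0, hvx]; norm_num)
    have hge' : ge 0 (y' ^ 2) := Or.inr (by rw [vq_sq hy0, hvy]; norm_num)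
    have hv : vq (x' ^ 2 + y' ^ 2) = 0 := by
      by_contra hcon
      have h0 : ge 0 (x' ^ 2 + y' ^ 2) := ge_add hge hge'
      have h1 : ge 1 (x' ^ 2 + y' ^ 2) := by
        right
        have := h0.resolve_left hne'
        omega
      have h2 := red_ge1 h1
      rw [red_add hge hge', mul_add, red_sq hx0 hvx, red_sq hy0 hvy] at h2
      revert h2; decide
    have hfac : x ^ 2 + y ^ 2 = (3 ^ m) ^ 2 * (x' ^ 2 + y' ^ 2) := by
      conv_lhs => rw [hx', hy']
      ring
    rw [hfac, vq_mul (pow_ne_zero 2 h3) hne', vq_sq h3, vq_zpow, hv, add_zero]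
  · refine ⟨vq y, ?_, Or.inr hlt.le, ge_self⟩
    have hne2 : y ^ 2 + x ^ 2 ≠ 0 := by rwa [add_comm]
    have := padicValRat.add_eq_of_lt (p := 3) hne2 (pow_ne_zero 2 hy) (pow_ne_zero 2 hx)
      (by have h1 := vq_sq hx; have h2 := vq_sq hy; unfold vq at h1 h2 hlt; omega)
    have h1 := vq_sq hy
    rw [add_comm (x ^ 2)]
    unfold vq at *
    rw [this, h1]

/-- the quadratic form -/
def nf (a b c d : ℚ) : ℚ := a ^ 2 + b ^ 2 + 3 * (c ^ 2 + d ^ 2)

lemma nf_ne {a b c d : ℚ} (h : a ≠ 0 ∨ b ≠ 0 ∨ c ≠ 0 ∨ d ≠ 0) : nf a b c d ≠ 0 := by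
  unfold nf
  rcases h with h | h | h | h
  all_goals
    have := sq_nonneg a
    have := sq_nonneg b
    have := sq_nonneg c
    have := sq_nonneg d
    have hp := sq_pos_of_ne_zero (R := ℚ) h
    intro h0
    linarith

lemma ge_sq {n : ℤ} {x : ℚ} {m : ℤ} (h : ge m x) (hn : n ≤ 2 * m) : ge n (x ^ 2) := by
  rcases h with rfl | h
  · left; norm_num
  · by_cases hx : x = 0
    · left; rw [hx]; norm_num
    · right; rw [vq_sq hx]; omega

/-- every term of the form has at least the valuation of the form -/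
lemma nf_terms {a b c d : ℚ} {n : ℤ} (h0 : nf a b c d ≠ 0) (hn : n ≤ vq (nf a b c d)) :
    ge n (a ^ 2) ∧ ge n (b ^ 2) ∧ ge n (3 * c ^ 2) ∧ ge n (3 * d ^ 2) := by
  have h3 : ∀ {m : ℤ} {x : ℚ}, ge m x → n ≤ 1 + 2 * m → ge n (3 * x ^ 2) := by
    intro m x hx hm
    have h1 : ge 1 (3 : ℚ) := Or.inr vq_three.ge
    have h2 : ge (2 * m) (x ^ 2) := ge_sq hx le_rfl
    exact ge_mono hm (ge_mul h1 h2)
  have h30 : ge n (3 * (0 : ℚ) ^ 2) := Or.inl (by norm_num)
  have h00 : ge n ((0 : ℚ) ^ 2) := Or.inl (by norm_num)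
  by_cases hab : a ≠ 0 ∨ b ≠ 0
  · obtain ⟨hr, m, hm, hma, hmb⟩ := sumsq a b hab
    by_cases hcd : c ≠ 0 ∨ d ≠ 0
    · obtain ⟨hs, l, hl, hlc, hld⟩ := sumsq c d hcd
      have hs3 : vq (3 * (c ^ 2 + d ^ 2)) = 1 + 2 * l := by
        rw [vq_mul (by norm_num) hs, vq_three, hl]
      have hs30 : 3 * (c ^ 2 + d ^ 2) ≠ 0 := mul_ne_zero (by norm_num) hs
      have hmin : vq (nf a b c d) = min (2 * m) (1 + 2 * l) := by
        have := padicValRat.add_eq_min (p := 3) (q := a ^ 2 + b ^ 2) (r := 3 * (c ^ 2 + d ^ 2))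
          h0 hr hs30 (by
            have h1 := hm; have h2 := hs3; unfold vq at h1 h2; omega)
        unfold vq at *
        rw [← hm, ← hs3]
        exact this
      rw [hmin] at hn
      have hn1 : n ≤ 2 * m := hn.trans (min_le_left _ _)
      have hn2 : n ≤ 1 + 2 * l := hn.trans (min_le_right _ _)
      exact ⟨ge_sq hma hn1, ge_sq hmb hn1, h3 hlc hn2, h3 hld hn2⟩
    · push Not at hcd
      obtain ⟨rfl, rfl⟩ := hcd
      have he : nf a b 0 0 = a ^ 2 + b ^ 2 := by unfold nf; ring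
      rw [he, hm] at hn
      exact ⟨ge_sq hma hn, ge_sq hmb hn, h30, h30⟩
  · push Not at hab
    obtain ⟨rfl, rfl⟩ := hab
    by_cases hcd : c ≠ 0 ∨ d ≠ 0
    · obtain ⟨hs, l, hl, hlc, hld⟩ := sumsq c d hcd
      have he : nf 0 0 c d = 3 * (c ^ 2 + d ^ 2) := by unfold nf; ring
      rw [he, vq_mul (by norm_num) hs, vq_three, hl] at hn
      exact ⟨h00, h00, h3 hlc hn, h3 hld hn⟩
    · push Not at hcd
      obtain ⟨rfl, rfl⟩ := hcd
      exact absurd (by unfold nf; ring) h0

/-- the valuation of the real part -/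
lemma nf_re {a b c d : ℚ} {n : ℤ} (h0 : nf a b c d ≠ 0) (hn : n ≤ vq (nf a b c d)) {m : ℤ}
    (hm : 2 * m ≤ n + 1) : ge m a := by
  by_cases ha : a = 0
  · exact Or.inl ha
  · right
    have := (nf_terms h0 hn).1.resolve_left (pow_ne_zero 2 ha)
    rw [vq_sq ha] at this
    omega

/-- the pure part: even valuation zero means a residue `1` modulo `3` -/
lemma pure_unit {b c d : ℚ} (h0 : nf 0 b c d ≠ 0) (hv : vq (nf 0 b c d) = 0) :
    9 * red (nf 0 b c d) = 9 := by
  obtain ⟨_, hb, hc, hd⟩ := nf_terms h0 hv.ge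
  have odd : ∀ x : ℚ, ge 0 (3 * x ^ 2) → ge 1 (3 * x ^ 2) := by
    intro x hx
    by_cases h : x = 0
    · left; rw [h]; norm_num
    · right
      have h1 := hx.resolve_left (mul_ne_zero (by norm_num) (pow_ne_zero 2 h))
      rw [vq_mul (by norm_num) (pow_ne_zero 2 h), vq_sq h, vq_three] at h1 ⊢
      omega
  have hc1 := odd c hc
  have hd1 := odd d hd
  have he : nf 0 b c d = b ^ 2 + (3 * c ^ 2 + 3 * d ^ 2) := by unfold nf; ring
  have hr : 9 * red (nf 0 b c d) = 9 * red (b ^ 2) := by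
    rw [he, red_add hb (ge_add hc hd), mul_add, red_ge1 (ge_add hc1 hd1), add_zero]
  have hu := unit_ne h0 hv
  rw [hr] at hu ⊢
  have hb0 : b ≠ 0 := by
    rintro rfl
    apply hu
    rw [zero_pow two_ne_zero, red_zero, mul_zero]
  have hvb : vq b = 0 := by
    by_contra hne
    apply hu
    apply red_ge1
    right
    have := hb.resolve_left (pow_ne_zero 2 hb0)
    rw [vq_sq hb0] at this ⊢
    omega
  exact red_sq hb0 hvb

/-- the same for the valuation two -/
lemma pure_two {b c d : ℚ} (h0 : nf 0 b c d ≠ 0) (hv : vq (nf 0 b c d) = 2) :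
    9 * red (nf 0 b c d / 9) = 9 := by
  have he : nf 0 b c d = 3 ^ 2 * nf 0 (b / 3) (c / 3) (d / 3) := by unfold nf; ring
  have h1 : nf 0 (b / 3) (c / 3) (d / 3) ≠ 0 := by
    intro h; apply h0; rw [he, h, mul_zero]
  have h2 : vq (nf 0 (b / 3) (c / 3) (d / 3)) = 0 := by
    rw [he, vq_mul (by norm_num) h1, vq_sq (by norm_num), vq_three] at hv
    omega
  have h3 : nf 0 b c d / 9 = nf 0 (b / 3) (c / 3) (d / 3) := by rw [he]; ring
  rw [h3]
  exact pure_unit h1 h2

end HFQ



/-!
HF swarm, part P5 (QUAT), second half (helper79): the quaternion algebra `(-1, -3)` over `ℚ`.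
-/

namespace HFQ

/-- the quaternion algebra -/
abbrev QD : Type := QuaternionAlgebra ℚ (-1) 0 (-3)

/-- the norm form -/
def nn (x : QD) : ℚ := nf x.re x.imI x.imJ x.imK

lemma nn_mul (x y : QD) : nn (x * y) = nn x * nn y := by
  obtain ⟨a, b, c, d⟩ := x
  obtain ⟨e, f, g, h⟩ := y
  simp only [nn, nf, QuaternionAlgebra.mk_mul_mk]
  ring

lemma nn_ne {x : QD} (h : x ≠ 0) : nn x ≠ 0 := by
  apply nf_ne
  by_contra hcon
  push Not at hcon
  apply h
  ext
  · exact hcon.1
  · exact hcon.2.1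
  · exact hcon.2.2.1
  · exact hcon.2.2.2

lemma nn_one : nn 1 = 1 := by
  simp [nn, nf]

lemma nn_zero : nn 0 = 0 := by
  simp [nn, nf]

lemma nn_neg (x : QD) : nn (-x) = nn x := by
  simp [nn, nf]

lemma nn_one_add (z : QD) : nn (1 + z) = 1 + (2 * z.re + nn z) := by
  simp only [nn, nf, QuaternionAlgebra.re_add, QuaternionAlgebra.imI_add,
    QuaternionAlgebra.imJ_add, QuaternionAlgebra.imK_add, QuaternionAlgebra.re_one,
    QuaternionAlgebra.imI_one, QuaternionAlgebra.imJ_one, QuaternionAlgebra.imK_one]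
  ring

lemma unit_or_zero (x : QD) : IsUnit x ∨ x = 0 := by
  by_cases h : x = 0
  · exact Or.inr h
  · left
    have hn := nn_ne h
    obtain ⟨a, b, c, d⟩ := x
    obtain ⟨N, hN⟩ : ∃ N, N = nn ⟨a, b, c, d⟩ := ⟨_, rfl⟩
    have hNe : N = a ^ 2 + b ^ 2 + 3 * (c ^ 2 + d ^ 2) := hN
    rw [← hN] at hn
    have h1 : (⟨a, b, c, d⟩ : QD) * ⟨a / N, -b / N, -c / N, -d / N⟩ = 1 := by
      rw [QuaternionAlgebra.mk_mul_mk]
      ext
      · simp only [QuaternionAlgebra.re_one]; field_simp; linear_combination -hNe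
      · simp only [QuaternionAlgebra.imI_one]; field_simp; ring
      · simp only [QuaternionAlgebra.imJ_one]; field_simp; ring
      · simp only [QuaternionAlgebra.imK_one]; field_simp; ring
    have h2 : (⟨a / N, -b / N, -c / N, -d / N⟩ : QD) * ⟨a, b, c, d⟩ = 1 := by
      rw [QuaternionAlgebra.mk_mul_mk]
      ext
      · simp only [QuaternionAlgebra.re_one]; field_simp; linear_combination -hNe
      · simp only [QuaternionAlgebra.imI_one]; field_simp; ring
      · simp only [QuaternionAlgebra.imJ_one]; field_simp; ring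
      · simp only [QuaternionAlgebra.imK_one]; field_simp; ring
    exact ⟨⟨_, _, h1, h2⟩, rfl⟩

noncomputable instance qdDiv : DivisionRing QD := DivisionRing.ofIsUnitOrEqZero unit_or_zero

/-- valuation of the norm mod 11 -/
noncomputable def VD (x : QD) : ZMod 11 := ((vq (nn x) : ℤ) : ZMod 11)

/-- unit part of the norm mod 27 -/
noncomputable def XD (x : QD) : ZMod 27 := ch (nn x)

lemma VD_mul {x y : QD} (hx : x ≠ 0) (hy : y ≠ 0) : VD (x * y) = VD x + VD y := by
  unfold VD
  rw [nn_mul, vq_mul (nn_ne hx) (nn_ne hy)]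
  push_cast
  rfl

lemma XD_mul {x y : QD} (hx : x ≠ 0) (hy : y ≠ 0) : XD (x * y) = XD x * XD y := by
  unfold XD
  rw [nn_mul, ch_mul (nn_ne hx) (nn_ne hy)]

lemma two_ge : ge 0 (2 : ℚ) := by simpa using ge_nat 2

/-- the error term for positive valuation -/
lemma err_pos {z : QD} (hz : z ≠ 0) {n m : ℤ} (hn : n ≤ vq (nn z)) (hm : 2 * m ≤ n + 1)
    (hmn : m ≤ n) : ge m (2 * z.re + nn z) := by
  have h1 : ge m z.re := nf_re (nn_ne hz) hn hm
  have h2 := ge_mul two_ge h1
  rw [zero_add] at h2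
  exact ge_add h2 (Or.inr (hmn.trans hn))

lemma one_add_unit {e : ℚ} (h : ge 1 e) : 1 + e ≠ 0 ∧ vq (1 + e) = 0 ∧
    red (1 + e) = 1 + red e := by
  have h0 : ge 0 e := ge_mono (by norm_num) h
  have hr : red (1 + e) = 1 + red e := by rw [red_add ge_one h0, red_one]
  have h9 : 9 * red (1 + e) ≠ 0 := by
    rw [hr, mul_add, red_ge1 h]; decide
  have hne : 1 + e ≠ 0 := by
    intro h'
    rw [h', red_zero, mul_zero] at h9
    exact h9 rfl
  refine ⟨hne, ?_, hr⟩
  have h1 : ge 0 (1 + e) := ge_add ge_one h0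
  by_contra hv
  apply h9
  apply red_ge1
  right
  have := h1.resolve_left hne
  omega

/-- positive valuation -/
lemma pos_case {z : QD} (hz : z ≠ 0) (hv : 1 ≤ vq (nn z)) :
    vq (nn (1 + z)) = 0 ∧ A1 (XD (1 + z)) ∧ (3 ≤ vq (nn z) → A2 (XD (1 + z))) ∧
      (5 ≤ vq (nn z) → XD (1 + z) = 1) := by
  have h1 : ge 1 (2 * z.re + nn z) := err_pos hz hv (by norm_num) le_rfl
  obtain ⟨hne, hv0, hr⟩ := one_add_unit h1
  rw [← nn_one_add] at hne hv0 hr
  have hX : XD (1 + z) = 1 + red (2 * z.re + nn z) := by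
    unfold XD
    rw [ch_of_unit hv0, hr]
  refine ⟨hv0, ?_, fun h3 => ?_, fun h5 => ?_⟩
  · unfold A1
    rw [hX, mul_add, red_ge1 h1]; decide
  · unfold A2
    rw [hX, mul_add, red_ge2 (err_pos hz h3 (by norm_num) (by norm_num))]; decide
  · rw [hX, red_ge3 (err_pos hz h5 (by norm_num) (by norm_num)), add_zero]

/-- negative valuation -/
lemma neg_case {z : QD} (hz : z ≠ 0) (hv : vq (nn z) ≤ -1) :
    vq (nn (1 + z)) = vq (nn z) ∧ (vq (nn z) ≤ -5 → XD (1 + z) = XD z) := by
  have hn := nn_ne hz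
  have hfac : nn (1 + z) = nn z * (1 + (1 + 2 * z.re) / nn z) := by
    rw [nn_one_add]; field_simp; ring
  -- valuation of the quotient
  have key : ∀ m : ℤ, 2 * m ≤ -vq (nn z) + 1 → m ≤ -vq (nn z) → ge m ((1 + 2 * z.re) / nn z) := by
    intro m h1 h2
    have h3 : ge (m + vq (nn z)) z.re := nf_re hn le_rfl (by
      show 2 * (m + vq (nn z)) ≤ vq (nn z) + 1
      omega)
    have h4 := ge_mul two_ge h3
    rw [zero_add] at h4
    have h5 : ge (m + vq (nn z)) (1 + 2 * z.re) := ge_add (ge_mono (by omega) ge_one) h4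
    have h6 : ge (-vq (nn z)) (nn z)⁻¹ := Or.inr (vq_inv _).ge
    have h7 := ge_mul h5 h6
    rw [div_eq_mul_inv]
    exact ge_mono (by omega) h7
  have h1 := key 1 (by omega) (by omega)
  obtain ⟨hne, hv0, hr⟩ := one_add_unit h1
  constructor
  · rw [hfac, vq_mul hn hne, hv0, add_zero]
  · intro h5
    unfold XD
    rw [hfac, ch_mul hn hne, ch_of_unit hv0, hr, red_ge3 (key 3 (by omega) (by omega)), add_zero,
      mul_one]

lemma VD_ne {z : QD} (h : VD z ≠ 0) : vq (nn z) ≠ 0 := by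
  intro h0
  apply h
  unfold VD
  rw [h0]
  rfl

/-- if `V z ≠ 0` and `V (1 + z) = 0` then the valuation is positive -/
lemma pos_of {z : QD} (hz : z ≠ 0) (h : VD z ≠ 0) (h1 : VD (1 + z) = 0) : 1 ≤ vq (nn z) := by
  by_contra hcon
  have h0 := VD_ne h
  have := (neg_case hz (by omega)).1
  apply h
  unfold VD at *
  rw [← this]
  exact h1

lemma VD_eq_iff {z : QD} (k : ℤ) : VD z = (k : ZMod 11) ↔ (11 : ℤ) ∣ vq (nn z) - k := by
  unfold VD
  rw [← sub_eq_zero, ← Int.cast_sub, ZMod.intCast_zmod_eq_zero_iff_dvd]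
  norm_cast

lemma ex (r _s : ℚ) (n : ℕ) (k : ℕ) (hk : ¬ 3 ∣ k) (h : r = 3 ^ n * k) :
    ((vq r : ℤ) : ZMod 11) = n ∧ ch r = k := by
  have hk0 : (k : ℚ) ≠ 0 := by
    intro h0
    apply hk
    have : k = 0 := by exact_mod_cast h0
    simp [this]
  obtain ⟨h1, h2⟩ := ch_eq n h hk0 (vq_nat hk)
  rw [h1, h2, red_nat]
  simp

lemma aux18 : ∀ y : ZMod 27, 18 * y = 0 → 9 * (y * y) = 0 := by decide

theorem datD : Dat QD VD XD where
  Vmul := fun x y hx hy => VD_mul hx hy
  Xmul := fun x y hx hy => XD_mul hx hy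
  Xunit := fun x hx => ch_unit (nn_ne hx)
  Vneg := by
    unfold VD
    rw [nn_neg, nn_one, vq_one]; rfl
  Xneg := by
    unfold XD
    rw [nn_neg, nn_one, ch_one]
  U1 := by
    intro z hz hV
    have h0 := VD_ne hV
    rcases lt_or_gt_of_ne h0 with h | h
    · right
      unfold VD
      rw [(neg_case hz (by omega)).1]
    · left
      unfold VD
      rw [(pos_case hz (by omega)).1]; rfl
  U2 := by
    intro z hz h0 h1 h2 h3 h4 hV
    have hp := pos_of hz h0 hV
    refine (pos_case hz hp).2.2.2 ?_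
    by_contra hlt
    have hc : vq (nn z) = 1 ∨ vq (nn z) = 2 ∨ vq (nn z) = 3 ∨ vq (nn z) = 4 := by omega
    unfold VD at h1 h2 h3 h4
    rcases hc with h | h | h | h
    · rw [h] at h1; exact h1 rfl
    · rw [h] at h2; exact h2 rfl
    · rw [h] at h3; exact h3 rfl
    · rw [h] at h4; exact h4 rfl
  U3 := by
    intro z hz h34 hV
    have h0 : VD z ≠ 0 := by
      rcases h34 with h | h
      · rw [h]; decide
      · rw [h]; decide
    have hp := pos_of hz h0 hV
    refine (pos_case hz hp).2.2.1 ?_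
    by_contra hlt
    have hc : vq (nn z) = 1 ∨ vq (nn z) = 2 := by omega
    unfold VD at h34
    rcases hc with h | h
    · rw [h] at h34; revert h34; decide
    · rw [h] at h34; revert h34; decide
  U4 := by
    intro z hz h0 hV
    exact (pos_case hz (pos_of hz h0 hV)).2.1
  U5 := by
    intro z hz h2 hV hA hne
    have h0 : VD z ≠ 0 := by rw [h2]; decide
    have hp := pos_of hz h0 hV
    have hlt : ¬ 5 ≤ vq (nn z) := fun h => hne ((pos_case hz hp).2.2.2 h)
    have hv2 : vq (nn z) = 2 := by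
      have hc : vq (nn z) = 1 ∨ vq (nn z) = 2 ∨ vq (nn z) = 3 ∨ vq (nn z) = 4 := by omega
      unfold VD at h2
      rcases hc with h | h | h | h
      · rw [h] at h2; exact absurd h2 (by decide)
      · exact h
      · rw [h] at h2; exact absurd h2 (by decide)
      · rw [h] at h2; exact absurd h2 (by decide)
    have hn := nn_ne hz
    -- the real part is divisible by 3
    have ha : ge 1 z.re := nf_re hn hv2.ge (by norm_num)
    have hnn2 : ge 2 (nn z) := Or.inr hv2.ge
    have h1 : ge 1 (2 * z.re + nn z) := err_pos hz hv2.ge (by norm_num) (by norm_num)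
    obtain ⟨hne1, hv0, hr⟩ := one_add_unit h1
    rw [← nn_one_add] at hne1 hv0 hr
    have ha' : ge 0 (z.re / 3) := by simpa using ge_div 1 ha
    have h2a : ge 1 (2 * z.re) := by
      have := ge_mul two_ge ha
      simpa using this
    have hX : XD (1 + z) = 1 + (6 * red (z.re / 3) + red (nn z)) := by
      unfold XD
      rw [ch_of_unit hv0, hr, red_add (ge_mono (by norm_num) h2a) (ge_mono (by norm_num) hnn2)]
      congr 2
      have h6 : 2 * z.re = ((6 : ℕ) : ℚ) * (z.re / 3) := by push_cast; ring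
      rw [h6, red_mul (ge_nat 6) ha', red_nat]
      push_cast; rfl
    have hA' : 18 * red (z.re / 3) = 0 := by
      unfold A2 at hA
      rw [hX] at hA
      have h3 := red_ge2 hnn2
      linear_combination hA - h3
    -- `z.re / 3` is divisible by 3 or its square is
    have hsq : 9 * red ((z.re / 3) ^ 2) = 0 := by
      rw [pow_two, red_mul ha' ha']
      exact aux18 _ hA'
    -- the pure part
    have hdec : nn z = z.re ^ 2 + nf 0 z.imI z.imJ z.imK := by unfold nn nf; ring
    have hu : nn z / 9 ≠ 0 := div_ne_zero hn (by norm_num)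
    have hvu : vq (nn z / 9) = 0 := by
      have h9 : nn z = 3 ^ 2 * (nn z / 9) := by ring
      have h10 : vq (nn z) = 2 * vq 3 + vq (nn z / 9) := by
        conv_lhs => rw [h9]
        rw [vq_mul (by norm_num) hu, vq_sq (by norm_num)]
      rw [hv2, vq_three] at h10
      omega
    have hX2 : XD z = red (nn z / 9) := by
      unfold XD
      exact (ch_eq 2 (by ring) hu hvu).2
    have hq9 : nf 0 z.imI z.imJ z.imK / 9 = nn z / 9 - (z.re / 3) ^ 2 := by
      rw [hdec]; ring
    have hge1 : ge 0 (nn z / 9) := Or.inr hvu.ge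
    have hge2 : ge 0 ((z.re / 3) ^ 2) := by
      have := ge_mul ha' ha'
      rw [pow_two]; simpa using this
    have hredq : 9 * red (nf 0 z.imI z.imJ z.imK / 9) = 9 * red (nn z / 9) := by
      rw [hq9, red_sub hge1 hge2, mul_sub, hsq, sub_zero]
    have hq0 : nf 0 z.imI z.imJ z.imK ≠ 0 := by
      intro h0
      rw [h0, zero_div, red_zero, mul_zero] at hredq
      exact unit_ne hu hvu hredq.symm
    have hq2 : vq (nf 0 z.imI z.imJ z.imK) = 2 := by
      have hge : ge 0 (nf 0 z.imI z.imJ z.imK / 9) := by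
        rw [hq9]; exact ge_sub hge1 hge2
      have hne9 : nf 0 z.imI z.imJ z.imK / 9 ≠ 0 := div_ne_zero hq0 (by norm_num)
      have hv9 : vq (nf 0 z.imI z.imJ z.imK / 9) = 0 := by
        by_contra hcon
        have h11 : ge 1 (nf 0 z.imI z.imJ z.imK / 9) := by
          right
          have := hge.resolve_left hne9
          omega
        rw [red_ge1 h11] at hredq
        exact unit_ne hu hvu hredq.symm
      have h9 : nf 0 z.imI z.imJ z.imK = 3 ^ 2 * (nf 0 z.imI z.imJ z.imK / 9) := by ring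
      rw [h9, vq_mul (by norm_num) hne9, vq_sq (by norm_num), hv9, vq_three]
      norm_num
    unfold A1
    rw [hX2, ← hredq]
    exact pure_two hq0 hq2
  U6 := by
    intro z hz hz1 h0 h1 hX hX4
    have hn := nn_ne hz
    have hn1 := nn_ne hz1
    -- divisibility by 11
    have hd : (11 : ℤ) ∣ vq (nn z) := by
      unfold VD at h0
      exact (ZMod.intCast_zmod_eq_zero_iff_dvd _ 11).1 h0
    have hd1 : (11 : ℤ) ∣ vq (nn (1 + z)) := by
      unfold VD at h1
      exact (ZMod.intCast_zmod_eq_zero_iff_dvd _ 11).1 h1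
    -- symmetry
    have hz2 : -(1 + z) ≠ 0 := neg_ne_zero.2 hz1
    have hs1 : nn (-(1 + z)) = nn (1 + z) := nn_neg _
    have hs2 : nn (1 + -(1 + z)) = nn z := by
      have : 1 + -(1 + z) = -z := by abel
      rw [this, nn_neg]
    have hXs : XD (1 + -(1 + z)) = XD z := by unfold XD; rw [hs2]
    rcases lt_trichotomy (vq (nn z)) 0 with h | h | h
    · obtain ⟨k, hk⟩ := hd
      have := (neg_case hz (by omega)).2 (by omega)
      rw [hX4, hX] at this
      exact absurd this (by decide)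
    · rcases lt_trichotomy (vq (nn (1 + z))) 0 with h' | h' | h'
      · have := (neg_case hz2 (by rw [hs1]; omega)).1
        rw [hs1, hs2] at this
        omega
      · -- both units
        have hr10 : red (nn z) = 10 := by
          unfold XD at hX; rwa [ch_of_unit h] at hX
        have hr4 : red (nn (1 + z)) = 4 := by
          unfold XD at hX4; rwa [ch_of_unit h'] at hX4
        have hgz : ge 0 (nn z) := Or.inr h.ge
        have hg1 : ge 0 (nn (1 + z)) := Or.inr h'.ge
        have h2a : 2 * z.re = nn (1 + z) - 1 - nn z := by rw [nn_one_add]; ring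
        have hg2a : ge 0 (2 * z.re) := by
          rw [h2a]; exact ge_sub (ge_sub hg1 ge_one) hgz
        have hr2a : red (2 * z.re) = -7 := by
          rw [h2a, red_sub (ge_sub hg1 ge_one) hgz, red_sub hg1 ge_one, hr4, hr10, red_one]
          decide
        -- the form of the doubled pure part
        let q := nf 0 (2 * z.imI) (2 * z.imJ) (2 * z.imK)
        have hq : q = ((4 : ℕ) : ℚ) * nn z - (2 * z.re) * (2 * z.re) := by
          simp only [q]; unfold nn nf; push_cast; ring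
        have hgq : ge 0 q := by
          rw [hq]
          have h5 := ge_mul (ge_nat 4) hgz
          have h6 := ge_mul hg2a hg2a
          simp only [add_zero] at h5 h6
          exact ge_sub h5 h6
        have hrq : red q = 18 := by
          have h5 := ge_mul (ge_nat 4) hgz
          have h6 := ge_mul hg2a hg2a
          simp only [add_zero] at h5 h6
          rw [hq, red_sub h5 h6, red_mul (ge_nat 4) hgz, red_mul hg2a hg2a, hr2a, hr10, red_nat]
          decide
        have hq0 : q ≠ 0 := by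
          intro h0'
          rw [h0', red_zero] at hrq
          revert hrq; decide
        have hvq : vq q = 2 := by
          have h7 := hgq.resolve_left hq0
          have hlt : ¬ 3 ≤ vq q := by
            intro h8
            rw [red_ge3 (Or.inr h8)] at hrq
            revert hrq; decide
          have hc : vq q = 0 ∨ vq q = 1 ∨ vq q = 2 := by omega
          rcases hc with h8 | h8 | h8
          · exfalso
            have := unit_ne hq0 h8
            rw [hrq] at this
            exact this (by decide)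
          · exfalso
            -- q / 3 is a unit
            have h9 : q = ((3 : ℕ) : ℚ) * (q / 3) := by push_cast; ring
            have hq30 : q / 3 ≠ 0 := div_ne_zero hq0 (by norm_num)
            have hvq3 : vq (q / 3) = 0 := by
              have h10 : vq q = vq 3 + vq (q / 3) := by
                conv_lhs => rw [h9]
                push_cast
                rw [vq_mul (by norm_num) hq30]
              rw [h8, vq_three] at h10
              omega
            have h10 := unit_ne hq30 hvq3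
            have h11 : red q = 3 * red (q / 3) := by
              conv_lhs => rw [h9]
              rw [red_mul (ge_nat 3) (Or.inr hvq3.ge), red_nat]
              push_cast; rfl
            rw [hrq] at h11
            generalize red (q / 3) = y at *
            revert y; decide
          · exact h8
        have h12 := pure_two hq0 hvq
        have h13 : red q = 9 * red (q / 9) := by
          have h14 := red_pow3 2 (r := q) (Or.inr (by rw [hvq]; norm_num))
          have h15 : q / 3 ^ 2 = q / 9 := by norm_num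
          rw [h15] at h14
          rw [h14]; norm_num
        rw [hrq] at h13
        have h16 : (18 : ZMod 27) = 9 := h13.trans h12
        revert h16; decide
      · obtain ⟨k, hk⟩ := hd1
        have := (pos_case hz2 (by rw [hs1]; omega)).2.2.2 (by rw [hs1]; omega)
        rw [hXs, hX] at this
        exact absurd this (by decide)
    · obtain ⟨k, hk⟩ := hd
      have := (pos_case hz (by omega)).2.2.2 (by omega)
      rw [hX4] at this
      exact absurd this (by decide)
  E1 := by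
    refine ⟨⟨0, 0, 1, 0⟩, ?_, ?_⟩
    · intro h; have := congrArg QuaternionAlgebra.imJ h; simp at this
    have e1 := ex (nn ⟨0, 0, 1, 0⟩) 0 1 1 (by norm_num) (by simp [nn, nf])
    have e2 := ex (nn (1 + ⟨0, 0, 1, 0⟩)) 0 0 4 (by norm_num) (by
      rw [nn_one_add]; simp [nn, nf]; norm_num)
    refine ⟨?_, ?_, ?_, ?_⟩
    · simpa [VD] using e1.1
    · simpa [XD] using e1.2
    · simpa [VD] using e2.1
    · simpa [XD] using e2.2
  E2 := by
    refine ⟨⟨0, 0, 1, 1⟩, ?_, ?_⟩
    · intro h; have := congrArg QuaternionAlgebra.imJ h; simp at this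
    have e1 := ex (nn ⟨0, 0, 1, 1⟩) 0 1 2 (by norm_num) (by simp [nn, nf]; norm_num)
    have e2 := ex (nn (1 + ⟨0, 0, 1, 1⟩)) 0 0 7 (by norm_num) (by
      rw [nn_one_add]; simp [nn, nf]; norm_num)
    refine ⟨?_, ?_, ?_, ?_⟩
    · simpa [VD] using e1.1
    · simpa [XD] using e1.2
    · simpa [VD] using e2.1
    · simpa [XD] using e2.2
  E3 := by
    refine ⟨⟨0, 3, 0, 0⟩, ?_, ?_⟩
    · intro h; have := congrArg QuaternionAlgebra.imI h; simp at this
    have e1 := ex (nn ⟨0, 3, 0, 0⟩) 0 2 1 (by norm_num) (by simp [nn, nf])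
    have e2 := ex (nn (1 + ⟨0, 3, 0, 0⟩)) 0 0 10 (by norm_num) (by
      rw [nn_one_add]; simp [nn, nf]; norm_num)
    refine ⟨?_, ?_, ?_, ?_⟩
    · simpa [VD] using e1.1
    · simpa [XD] using e1.2
    · simpa [VD] using e2.1
    · simpa [XD] using e2.2
  E4 := by
    refine ⟨⟨3 / 2, 0, 3 / 2, 0⟩, ?_, ?_⟩
    · intro h; have := congrArg QuaternionAlgebra.imJ h; simp at this
    have e1 := ex (nn ⟨3 / 2, 0, 3 / 2, 0⟩) 0 2 1 (by norm_num) (by simp [nn, nf]; norm_num)
    have e2 := ex (nn (1 + ⟨3 / 2, 0, 3 / 2, 0⟩)) 0 0 13 (by norm_num) (by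
      rw [nn_one_add]; simp [nn, nf]; norm_num)
    refine ⟨?_, ?_, ?_, ?_⟩
    · simpa [VD] using e1.1
    · simpa [XD] using e1.2
    · simpa [VD] using e2.1
    · simpa [XD] using e2.2
  E5 := by
    refine ⟨⟨9 / 2, 0, 9 / 2, 0⟩, ?_, ?_⟩
    · intro h; have := congrArg QuaternionAlgebra.imJ h; simp at this
    have e1 := ex (nn ⟨9 / 2, 0, 9 / 2, 0⟩) 0 4 1 (by norm_num) (by simp [nn, nf]; norm_num)
    have e2 := ex (nn (1 + ⟨9 / 2, 0, 9 / 2, 0⟩)) 0 0 91 (by norm_num) (by
      rw [nn_one_add]; simp [nn, nf]; norm_num)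
    refine ⟨?_, ?_, ?_, ?_⟩
    · simpa [VD] using e1.1
    · simpa [XD] using e1.2
    · simpa [VD] using e2.1
    · have : ((91 : ℕ) : ZMod 27) = 10 := by decide
      rw [← this]
      exact e2.2

/-- the homomorphism with kernel `Γ` -/
noncomputable def phi0 : QDˣ →* Multiplicative (ZMod 11) × ZMod 27 where
  toFun x := (Multiplicative.ofAdd (VD (x : QD)), XD (x : QD))
  map_one' := by
    have h1 : VD ((1 : QDˣ) : QD) = 0 := by
      unfold VD
      rw [Units.val_one, nn_one, vq_one]; rfl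
    have h2 : XD ((1 : QDˣ) : QD) = 1 := by
      unfold XD
      rw [Units.val_one, nn_one, ch_one]
    rw [h1, h2]
    rfl
  map_mul' x y := by
    rw [Units.val_mul, VD_mul x.ne_zero y.ne_zero, XD_mul x.ne_zero y.ne_zero]
    rfl

/-- Part P5 (QUAT) -/
theorem quat : ∃ (D : Type) (_ : DivisionRing D) (Γ : Subgroup Dˣ) (_ : Γ.Normal)
    (V : D → ZMod 11) (χ : D → ZMod 27),
    Γ.FiniteIndex ∧ (∀ a b : Dˣ ⧸ Γ, a * b = b * a) ∧ Dat D V χ ∧
    ∀ x : Dˣ, x ∈ Γ ↔ V (x : D) = 0 ∧ χ (x : D) = 1 := by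
  refine ⟨QD, qdDiv, phi0.toHomUnits.ker, inferInstance, VD, XD, ?_, ?_, datD, ?_⟩
  · infer_instance
  · intro a b
    induction a using QuotientGroup.induction_on with
    | _ x =>
    induction b using QuotientGroup.induction_on with
    | _ y =>
    rw [← QuotientGroup.mk_mul, ← QuotientGroup.mk_mul, QuotientGroup.eq, MonoidHom.mem_ker]
    rw [map_mul, map_inv, map_mul, map_mul, mul_comm (phi0.toHomUnits y)]
    exact inv_mul_cancel _
  · intro x
    rw [MonoidHom.mem_ker, Units.ext_iff, MonoidHom.coe_toHomUnits, Units.val_one, Prod.ext_iff]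
    constructor
    · rintro ⟨h1, h2⟩
      exact ⟨ofAdd_eq_one.1 h1, h2⟩
    · rintro ⟨h1, h2⟩
      exact ⟨ofAdd_eq_one.2 h1, h2⟩

end HFQ
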