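import Pool.Agent.Helper43.HF.Defs

namespace HFQ

namespace P6

section general
variable {F : Type*} [DivisionRing F] (Γ : Subgroup Fˣ)

lemma cls_zero : cls Γ 0 = 0 := by simp [cls]

lemma cls_ne {x : F} (h : x ≠ 0) :
    cls Γ x = ((QuotientGroup.mk (Units.mk0 x h) : Fˣ ⧸ Γ) : WithZero (Fˣ ⧸ Γ)) := by
  simp [cls, h]

lemma cls_eq_zero {x : F} : cls Γ x = 0 ↔ x = 0 := by
  by_cases h : x = 0
  · simp [h, cls_zero]
  · simp [cls_ne Γ h, h]

lemma cls_mul [Γ.Normal] (x y : F) : cls Γ (x * y) = cls Γ x * cls Γ y := by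
  by_cases hx : x = 0
  · simp [hx, cls_zero]
  by_cases hy : y = 0
  · simp [hy, cls_zero]
  rw [cls_ne Γ hx, cls_ne Γ hy, cls_ne Γ (mul_ne_zero hx hy), ← WithZero.coe_mul,
    ← QuotientGroup.mk_mul]
  congr 2
  ext; simp

lemma cls_surj (a : Quo F Γ) : ∃ x, cls Γ x = a := by
  induction a using WithZero.recZeroCoe with
  | zero => exact ⟨0, cls_zero Γ⟩
  | coe a =>
    obtain ⟨u, rfl⟩ := QuotientGroup.mk_surjective a
    exact ⟨u, by rw [cls_ne Γ u.ne_zero]; simp⟩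
end general

section D
variable {D : Type*} [DivisionRing D] {V : D → ZMod 11} {χ : D → ZMod 27}

lemma V_one (h : Dat D V χ) : V 1 = 0 := by
  have := h.Vmul 1 1 one_ne_zero one_ne_zero
  rw [mul_one] at this
  simpa using this

lemma X_one (h : Dat D V χ) : χ 1 = 1 := by
  have h1 := h.Xmul 1 1 one_ne_zero one_ne_zero
  rw [mul_one] at h1
  have h2 := h.Xunit 1 one_ne_zero
  exact (h2.mul_left_cancel (by rw [mul_one]; exact h1)).symm

variable {Γ : Subgroup Dˣ}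

lemma cls_eq (h : Dat D V χ)
    (hΓ : ∀ x : Dˣ, x ∈ Γ ↔ V (x : D) = 0 ∧ χ (x : D) = 1) {x y : D} (hx : x ≠ 0) (hy : y ≠ 0) :
    cls Γ x = cls Γ y ↔ V x = V y ∧ χ x = χ y := by
  rw [cls_ne Γ hx, cls_ne Γ hy, WithZero.coe_inj, QuotientGroup.eq, hΓ]
  have hxi : x⁻¹ ≠ 0 := inv_ne_zero hx
  have hz : x⁻¹ * y ≠ 0 := mul_ne_zero hxi hy
  have e : x * (x⁻¹ * y) = y := mul_inv_cancel_left₀ hx y
  have hV := h.Vmul x (x⁻¹ * y) hx hz
  have hX := h.Xmul x (x⁻¹ * y) hx hz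
  rw [e] at hV hX
  simp only [Units.val_mul, Units.val_inv_eq_inv_val, Units.val_mk0]
  constructor
  · rintro ⟨h1, h2⟩
    rw [h1, add_zero] at hV
    rw [h2, mul_one] at hX
    exact ⟨hV.symm, hX.symm⟩
  · rintro ⟨h1, h2⟩
    rw [h1] at hV
    rw [h2] at hX
    refine ⟨by simpa using hV, ?_⟩
    exact ((h.Xunit y hy).mul_left_cancel (by rw [mul_one]; exact hX)).symm

/-- all invariants depend on the class only -/
lemma val_of_cls (h : Dat D V χ)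
    (hΓ : ∀ x : Dˣ, x ∈ Γ ↔ V (x : D) = 0 ∧ χ (x : D) = 1) {x y : D} (hc : cls Γ x = cls Γ y) :
    V x = V y ∧ χ x = χ y := by
  by_cases hx : x = 0
  · have : y = 0 := by
      rw [hx, cls_zero] at hc
      exact (cls_eq_zero Γ).1 hc.symm
    rw [hx, this]; exact ⟨rfl, rfl⟩
  · have hy : y ≠ 0 := by
      rintro rfl
      rw [cls_zero] at hc
      exact hx ((cls_eq_zero Γ).1 hc)
    exact (cls_eq h hΓ hx hy).1 hc

end D

end P6

open P6 in
/-- Part P6 (TRANS) -/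
theorem trans {D : Type} [DivisionRing D] {Γ : Subgroup Dˣ} [Γ.Normal]
    {V : D → ZMod 11} {χ : D → ZMod 27} (h : Dat D V χ)
    (hΓ : ∀ x : Dˣ, x ∈ Γ ↔ V (x : D) = 0 ∧ χ (x : D) = 1)
    {K : Type*} [Field K] (Δ : Subgroup Kˣ) (f : Quo D Γ ≃ Quo K Δ) (hf : IsIso Γ Δ f) :
    ∃ (V' : K → ZMod 11) (χ' : K → ZMod 27), Dat K V' χ' := by
  obtain ⟨hf0, hfm, hfa⟩ := hf
  have hs0 : f.symm 0 = 0 := by rw [← hf0, Equiv.symm_apply_apply]
  have hsm : ∀ a b, f.symm (a * b) = f.symm a * f.symm b := by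
    intro a b
    apply f.injective
    rw [Equiv.apply_symm_apply, hfm, Equiv.apply_symm_apply, Equiv.apply_symm_apply]
  choose r hr using fun x : K => cls_surj Γ (f.symm (cls Δ x))
  have r0 : ∀ x : K, r x = 0 ↔ x = 0 := by
    intro x
    rw [← cls_eq_zero Γ, hr, ← hs0, f.symm.injective.eq_iff, cls_eq_zero]
  have rne : ∀ x : K, x ≠ 0 → r x ≠ 0 := fun x hx hh => hx ((r0 x).1 hh)
  have hmul : ∀ x y : K, cls Γ (r (x * y)) = cls Γ (r x * r y) := by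
    intro x y
    rw [hr, cls_mul, hsm, cls_mul, hr, hr]
  have hVm : ∀ x y : K, x ≠ 0 → y ≠ 0 → V (r (x * y)) = V (r x) + V (r y) := by
    intro x y hx hy
    rw [(val_of_cls h hΓ (hmul x y)).1, h.Vmul _ _ (rne x hx) (rne y hy)]
  have hXm : ∀ x y : K, x ≠ 0 → y ≠ 0 → χ (r (x * y)) = χ (r x) * χ (r y) := by
    intro x y hx hy
    rw [(val_of_cls h hΓ (hmul x y)).2, h.Xmul _ _ (rne x hx) (rne y hy)]
  have hV1 : V (r 1) = 0 := by
    have := hVm 1 1 one_ne_zero one_ne_zero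
    rw [mul_one] at this
    simpa using this
  have hX1 : χ (r 1) = 1 := by
    have h1 := hXm 1 1 one_ne_zero one_ne_zero
    rw [mul_one] at h1
    have h2 := h.Xunit (r 1) (rne 1 one_ne_zero)
    exact (h2.mul_left_cancel (by rw [mul_one]; exact h1)).symm
  -- from K to D
  have toD : ∀ x y : K, ∃ x' y' : D, cls Γ x' = cls Γ (r x) ∧ cls Γ y' = cls Γ (r y) ∧
      cls Γ (x' + y') = cls Γ (r (x + y)) := by
    intro x y
    have hm : cls Δ (x + y) ∈ hadd Δ (f (f.symm (cls Δ x))) (f (f.symm (cls Δ y))) :=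
      ⟨x, y, by rw [Equiv.apply_symm_apply], by rw [Equiv.apply_symm_apply], rfl⟩
    rw [← hfa] at hm
    obtain ⟨c, ⟨x', y', h1, h2, h3⟩, h4⟩ := hm
    refine ⟨x', y', by rw [h1, hr], by rw [h2, hr], ?_⟩
    rw [h3, hr, ← h4, Equiv.symm_apply_apply]
  -- from D to K
  have toK : ∀ x' y' : D, ∃ x y : K, cls Γ (r x) = cls Γ x' ∧ cls Γ (r y) = cls Γ y' ∧
      cls Γ (r (x + y)) = cls Γ (x' + y') := by
    intro x' y'
    have hm : f (cls Γ (x' + y')) ∈ f '' hadd Γ (cls Γ x') (cls Γ y') :=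
      ⟨_, ⟨x', y', rfl, rfl, rfl⟩, rfl⟩
    rw [hfa] at hm
    obtain ⟨x, y, h1, h2, h3⟩ := hm
    exact ⟨x, y, by rw [hr, h1, Equiv.symm_apply_apply], by rw [hr, h2, Equiv.symm_apply_apply],
      by rw [hr, h3, Equiv.symm_apply_apply]⟩
  -- universal transfer
  have univ : ∀ z : K, z ≠ 0 → ∃ w : D, w ≠ 0 ∧ V w = V (r z) ∧ χ w = χ (r z) ∧
      V (1 + w) = V (r (1 + z)) ∧ χ (1 + w) = χ (r (1 + z)) ∧ (1 + w = 0 ↔ 1 + z = 0) := by
    intro z hz
    obtain ⟨x', y', h1, h2, h3⟩ := toD 1 z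
    have hx' : x' ≠ 0 := by
      rintro rfl
      rw [cls_zero, eq_comm, cls_eq_zero] at h1
      exact rne 1 one_ne_zero h1
    have hy' : y' ≠ 0 := by
      rintro rfl
      rw [cls_zero, eq_comm, cls_eq_zero] at h2
      exact rne z hz h2
    have hxi : x'⁻¹ ≠ 0 := inv_ne_zero hx'
    obtain ⟨v1, c1⟩ := val_of_cls h hΓ h1
    obtain ⟨v2, c2⟩ := val_of_cls h hΓ h2
    obtain ⟨v3, c3⟩ := val_of_cls h hΓ h3
    rw [hV1] at v1
    rw [hX1] at c1
    have vi : V x'⁻¹ = 0 := by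
      have := h.Vmul x' x'⁻¹ hx' hxi
      rw [mul_inv_cancel₀ hx', V_one h, v1, zero_add] at this
      exact this.symm
    have ci : χ x'⁻¹ = 1 := by
      have := h.Xmul x' x'⁻¹ hx' hxi
      rw [mul_inv_cancel₀ hx', X_one h, c1, one_mul] at this
      exact this.symm
    have e1 : 1 + x'⁻¹ * y' = x'⁻¹ * (x' + y') := by
      rw [mul_add, inv_mul_cancel₀ hx']
    have hs : x' + y' = 0 ↔ 1 + z = 0 := by
      rw [← cls_eq_zero Γ, h3, cls_eq_zero, r0]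
    refine ⟨x'⁻¹ * y', mul_ne_zero hxi hy', ?_, ?_, ?_, ?_, ?_⟩
    · rw [h.Vmul _ _ hxi hy', vi, v2, zero_add]
    · rw [h.Xmul _ _ hxi hy', ci, c2, one_mul]
    · rw [e1]
      by_cases hh : x' + y' = 0
      · rw [hh, mul_zero, ← v3, hh]
      · rw [h.Vmul _ _ hxi hh, vi, v3, zero_add]
    · rw [e1]
      by_cases hh : x' + y' = 0
      · rw [hh, mul_zero, ← c3, hh]
      · rw [h.Xmul _ _ hxi hh, ci, c3, one_mul]
    · rw [e1, ← hs]
      constructor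
      · intro hh
        exact (mul_eq_zero.1 hh).resolve_left hxi
      · intro hh; rw [hh, mul_zero]
  -- existential transfer
  have exis : ∀ w : D, w ≠ 0 → ∃ z : K, z ≠ 0 ∧ V (r z) = V w ∧ χ (r z) = χ w ∧
      V (r (1 + z)) = V (1 + w) ∧ χ (r (1 + z)) = χ (1 + w) := by
    intro w hw
    obtain ⟨x, y, h1, h2, h3⟩ := toK 1 w
    have hx : x ≠ 0 := by
      rintro rfl
      rw [(r0 0).2 rfl, cls_zero, eq_comm, cls_eq_zero] at h1
      exact one_ne_zero h1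
    have hy : y ≠ 0 := by
      rintro rfl
      rw [(r0 0).2 rfl, cls_zero, eq_comm, cls_eq_zero] at h2
      exact hw h2
    have hxi : x⁻¹ ≠ 0 := inv_ne_zero hx
    obtain ⟨v1, c1⟩ := val_of_cls h hΓ h1
    obtain ⟨v2, c2⟩ := val_of_cls h hΓ h2
    obtain ⟨v3, c3⟩ := val_of_cls h hΓ h3
    rw [V_one h] at v1
    rw [X_one h] at c1
    have vi : V (r x⁻¹) = 0 := by
      have := hVm x x⁻¹ hx hxi
      rw [mul_inv_cancel₀ hx, hV1, v1, zero_add] at this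
      exact this.symm
    have ci : χ (r x⁻¹) = 1 := by
      have := hXm x x⁻¹ hx hxi
      rw [mul_inv_cancel₀ hx, hX1, c1, one_mul] at this
      exact this.symm
    have e1 : 1 + x⁻¹ * y = x⁻¹ * (x + y) := by
      rw [mul_add, inv_mul_cancel₀ hx]
    refine ⟨x⁻¹ * y, mul_ne_zero hxi hy, ?_, ?_, ?_, ?_⟩
    · rw [hVm _ _ hxi hy, vi, v2, zero_add]
    · rw [hXm _ _ hxi hy, ci, c2, one_mul]
    · rw [e1]
      by_cases hh : x + y = 0
      · rw [hh, mul_zero, ← v3, hh]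
      · rw [hVm _ _ hxi hh, vi, v3, zero_add]
    · rw [e1]
      by_cases hh : x + y = 0
      · rw [hh, mul_zero, ← c3, hh]
      · rw [hXm _ _ hxi hh, ci, c3, one_mul]
  have neg : V (r (-1)) = 0 ∧ χ (r (-1)) = 1 := by
    obtain ⟨x', y', h1, h2, h3⟩ := toD 1 (-1)
    rw [add_neg_cancel, (r0 0).2 rfl, cls_zero, cls_eq_zero] at h3
    have hy' : y' = -1 * x' := by rw [neg_one_mul]; exact (neg_eq_of_add_eq_zero_right h3).symm
    have hx' : x' ≠ 0 := by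
      rintro rfl
      rw [cls_zero, eq_comm, cls_eq_zero] at h1
      exact rne 1 one_ne_zero h1
    obtain ⟨v1, c1⟩ := val_of_cls h hΓ h1
    obtain ⟨v2, c2⟩ := val_of_cls h hΓ h2
    rw [hV1] at v1
    rw [hX1] at c1
    rw [hy', h.Vmul _ _ (neg_ne_zero.2 one_ne_zero) hx', h.Vneg, v1, zero_add] at v2
    rw [hy', h.Xmul _ _ (neg_ne_zero.2 one_ne_zero) hx', h.Xneg, c1, one_mul] at c2
    exact ⟨v2.symm, c2.symm⟩
  refine ⟨fun x => V (r x), fun x => χ (r x), ?_⟩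
  constructor
  · exact hVm
  · exact hXm
  · intro x hx; exact h.Xunit _ (rne x hx)
  · exact neg.1
  · exact neg.2
  · intro z hz h1
    obtain ⟨w, w0, a1, a2, a3, a4, a5⟩ := univ z hz
    simp only [← a1, ← a2, ← a3, ← a4] at *
    exact h.U1 w w0 h1
  · intro z hz h1 h2 h3 h4 h5 h6
    obtain ⟨w, w0, a1, a2, a3, a4, a5⟩ := univ z hz
    simp only [← a1, ← a2, ← a3, ← a4] at *
    exact h.U2 w w0 h1 h2 h3 h4 h5 h6
  · intro z hz h1 h2
    obtain ⟨w, w0, a1, a2, a3, a4, a5⟩ := univ z hz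
    simp only [← a1, ← a2, ← a3, ← a4] at *
    exact h.U3 w w0 h1 h2
  · intro z hz h1 h2
    obtain ⟨w, w0, a1, a2, a3, a4, a5⟩ := univ z hz
    simp only [← a1, ← a2, ← a3, ← a4] at *
    exact h.U4 w w0 h1 h2
  · intro z hz h1 h2 h3 h4
    obtain ⟨w, w0, a1, a2, a3, a4, a5⟩ := univ z hz
    simp only [← a1, ← a2, ← a3, ← a4] at *
    exact h.U5 w w0 h1 h2 h3 h4
  · intro z hz h1 h2 h3 h4
    obtain ⟨w, w0, a1, a2, a3, a4, a5⟩ := univ z hz
    simp only [← a1, ← a2, ← a3, ← a4] at *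
    exact h.U6 w w0 (fun hh => h1 (a5.1 hh)) h2 h3 h4
  · obtain ⟨w, w0, b1, b2, b3, b4⟩ := h.E1
    obtain ⟨z, z0, a1, a2, a3, a4⟩ := exis w w0
    exact ⟨z, z0, a1.trans b1, a2.trans b2, a3.trans b3, a4.trans b4⟩
  · obtain ⟨w, w0, b1, b2, b3, b4⟩ := h.E2
    obtain ⟨z, z0, a1, a2, a3, a4⟩ := exis w w0
    exact ⟨z, z0, a1.trans b1, a2.trans b2, a3.trans b3, a4.trans b4⟩
  · obtain ⟨w, w0, b1, b2, b3, b4⟩ := h.E3
    obtain ⟨z, z0, a1, a2, a3, a4⟩ := exis w w0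
    exact ⟨z, z0, a1.trans b1, a2.trans b2, a3.trans b3, a4.trans b4⟩
  · obtain ⟨w, w0, b1, b2, b3, b4⟩ := h.E4
    obtain ⟨z, z0, a1, a2, a3, a4⟩ := exis w w0
    exact ⟨z, z0, a1.trans b1, a2.trans b2, a3.trans b3, a4.trans b4⟩
  · obtain ⟨w, w0, b1, b2, b3, b4⟩ := h.E5
    obtain ⟨z, z0, a1, a2, a3, a4⟩ := exis w w0
    exact ⟨z, z0, a1.trans b1, a2.trans b2, a3.trans b3, a4.trans b4⟩

end HFQ
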